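import Pool.Agent.H586S.Main
import Pool.Agent.H586P.FO2
import Pool.Agent.H543R3.PP.G0

/-!
# Local substitution rules: definitions
-/

set_option autoImplicit false

namespace Pool.Agent.H586T

open Pool.Agent.H586S Pool.Agent.H555R2.PF Pool.Agent.H555R2.PF.Fm Pool.Agent.H586P Filter

/-- the substitution template `θ`, applied to the variables `π 0, π 1, …` instead of `0, 1, …` -/
def place (θ : ℕ → Fm) (π : Equiv.Perm ℕ) : ℕ → Fm :=
  fun n => (θ (π.symm n)).subst fun m => var (π m)

/-- all variables changed by `place θ π`, and the variables of the formulas substituted for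
them, occur in `A` -/
def Inside (θ : ℕ → Fm) (π : Equiv.Perm ℕ) (A : Fm) : Prop :=
  ∀ n, θ n ≠ var n → π n ∈ A.vars ∧ ∀ m ∈ (θ n).vars, π m ∈ A.vars

/-- Proofs in `F` + the substitution rules with templates in `H`: from `A` infer the result of
substituting `θ` in `A`, where the variables of the template `θ ∈ H` may be renamed. If `r` holds,
the rule may only be applied if all its variables occur in `A`.
The head of the list is the last line. -/
inductive SProof (F : List Rule) (H : Set (ℕ → Fm)) (r : Prop) : List Fm → Prop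
  | nil : SProof F H r []
  | rule {L : List Fm} {B : Fm} : SProof F H r L → FregeStep F L B → SProof F H r (B :: L)
  | sub {L : List Fm} {A : Fm} {θ : ℕ → Fm} {π : Equiv.Perm ℕ} : SProof F H r L → θ ∈ H →
      A ∈ L → (r → Inside θ π A) → SProof F H r (A.subst (place θ π) :: L)

/-- `A` has a proof in `F` + the rules in `H` with at most `m` symbols. -/
def SSize (F : List Rule) (H : Set (ℕ → Fm)) (r : Prop) (A : Fm) (m : ℕ) : Prop :=
  ∃ L : List Fm, SProof F H r (A :: L) ∧ psize (A :: L) ≤ m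

/-- `θ` changes only finitely many variables. -/
def Loc (θ : ℕ → Fm) : Prop := ∃ w, ∀ n, w ≤ n → θ n = var n

/-- `θ` replaces every variable by a formula equivalent to it. -/
def Triv (θ : ℕ → Fm) : Prop := ∀ (v : ℕ → Prop) (n : ℕ), (θ n).eval v ↔ v n

/-- `θ` fixes the assignment with constant value `b` -/
def Fixes (b : Prop) (θ : ℕ → Fm) : Prop := ∀ n, (θ n).eval (fun _ => b) ↔ b

/-- `θ` only concerns the variables `0, …, w-1` -/
def InB (w : ℕ) (θ : ℕ → Fm) : Prop :=
  (∀ n, w ≤ n → θ n = var n) ∧ ∀ n < w, ∀ m ∈ (θ n).vars, m < w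

/-- the rules with templates in `H`, applied inside the block `0, …, w-1`, lead from `v` to
`u` -/
inductive Reach (H : Set (ℕ → Fm)) (w : ℕ) : (ℕ → Bool) → (ℕ → Bool) → Prop
  | refl (v : ℕ → Bool) : Reach H w v v
  | step {v u : ℕ → Bool} {θ : ℕ → Fm} {ρ : Equiv.Perm ℕ} : θ ∈ H → InB w (place θ ρ) →
      Reach H w (fun n => ev v (place θ ρ n)) u → Reach H w v u

/-- the literal -/
def litf (b : Bool) (x : ℕ) : Fm := if b = true then var x else neg (var x)

/-- `l₁ → (l₂ → … → Z)` -/
def imps (l : List Fm) (Z : Fm) : Fm := l.foldr imp Z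

/-- **task T2**: trivial rules are useless -/
def S_T2 : Prop := ∀ (F : List Rule), IsFrege F → ∀ H : Set (ℕ → Fm), H.Finite →
  (∀ θ ∈ H, Loc θ ∧ Triv θ) → ∀ r : Prop, PolySim (SSize F H r) (FSize F)

/-- **task T3s**: reachability -/
def S_T3s : Prop := ∀ H : Set (ℕ → Fm), (∀ θ ∈ H, Loc θ) → (∃ θ ∈ H, ¬ Fixes False θ) →
  (∃ θ ∈ H, ¬ Fixes True θ) →
  ∃ w n₀, n₀ < w ∧ ∀ v : ℕ → Bool, ∃ u : ℕ → Bool, Reach H w v u ∧ u n₀ ≠ v n₀

/-- **task T4**: removing provable hypotheses -/
def S_T4 (F : List Rule) : Prop := ∃ c : ℕ, ∀ (l : List Fm) (A : Fm) (m M : ℕ),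
  (∀ X ∈ l, ∃ Y : Fm, Y.size ≤ M ∧ (X = imp Y Y ∨ X = neg (neg (imp Y Y)))) →
  FSize F (imps l A) m → FSize F A (c * (m + M) ^ 2)

end Pool.Agent.H586T
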