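import Pool.Agent.H586P.Defs3

/-!
# A permutation step in the sparse world
-/

set_option autoImplicit false

namespace Pool.Agent.H586P.T_dstep

open Pool.Agent.H586P Pool.Agent.H555R2.PF Pool.Agent.H555R2.PF.Fm

/-! ### substitutions, sizes, variables -/

theorem conjL_sub {z : ℕ} {σ : ℕ → Fm} (hz : σ z = var z) (Ds : List Fm) :
    (conjL z Ds).subst σ = conjL z (Ds.map (fun D => D.subst σ)) := by
  induction Ds with
  | nil => simp [conjL, subst, hz]
  | cons D Ds ih => simp only [conjL, subst, List.map_cons, ih]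

theorem disjL_sub {z : ℕ} {σ : ℕ → Fm} (hz : σ z = var z) (Ds : List Fm) :
    (disjL z Ds).subst σ = disjL z (Ds.map (fun D => D.subst σ)) := by
  induction Ds with
  | nil => simp [disjL, subst, hz]
  | cons D Ds ih => simp only [disjL, subst, List.map_cons, ih]

theorem eqc_sub {z : ℕ} {σ : ℕ → Fm} (hz : σ z = var z) (β a : ℕ) (τ : ℕ → Fm) :
    (eqc z β τ a).subst σ = eqc z β (fun i => (τ i).subst σ) a := by
  unfold eqc
  rw [conjL_sub hz, List.map_map]
  congr 1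
  refine List.map_congr_left fun i _ => ?_
  simp only [Function.comp]
  split_ifs <;> rfl

theorem eqc_congr {z β a : ℕ} {τ τ' : ℕ → Fm} (h : ∀ i < β, τ i = τ' i) :
    eqc z β τ a = eqc z β τ' a := by
  unfold eqc
  congr 1
  refine List.map_congr_left fun i hi => ?_
  rw [h i (List.mem_range.1 hi)]

theorem posF_sub {z : ℕ} {σ : ℕ → Fm} (hz : σ z = var z) (w β a : ℕ) (τ τ' : ℕ → ℕ → Fm)
    (h : ∀ l < w, ∀ i < β, (τ l i).subst σ = τ' l i) :
    (posF z w β τ a).subst σ = posF z w β τ' a := by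
  unfold posF
  rw [disjL_sub hz, List.map_map]
  congr 1
  refine List.map_congr_left fun l hl => ?_
  simp only [Function.comp]
  rw [eqc_sub hz]
  exact eqc_congr fun i hi => h l (List.mem_range.1 hl) i hi

theorem psize_map_le {ι : Type} (f : ι → Fm) (s : ℕ) (l : List ι) (h : ∀ i ∈ l, (f i).size ≤ s) :
    psize (l.map f) ≤ l.length * s := by
  induction l with
  | nil => simp [psize]
  | cons a l ih =>
    rw [List.map_cons, psize_cons, List.length_cons]
    have h1 := ih fun i hi => h i (List.mem_cons_of_mem _ hi)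
    have h2 := h a List.mem_cons_self
    nlinarith

theorem eqc_size {z β a s : ℕ} {τ : ℕ → Fm} (h : ∀ i < β, (τ i).size ≤ s) :
    (eqc z β τ a).size ≤ β * (s + 2) + 3 := by
  unfold eqc
  rw [conjL_size, List.length_map, List.length_range]
  have h1 := psize_map_le (fun i => if a.testBit i = true then τ i else neg (τ i)) (s + 1)
    (List.range β) (fun i hi => by
      have h2 := h i (List.mem_range.1 hi)
      split_ifs
      · omega
      · simp only [size]
        omega)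
  rw [List.length_range] at h1
  have h3 : β * (s + 2) = β * (s + 1) + β := by ring
  omega

theorem posF_size {z w β a e : ℕ} {τ : ℕ → ℕ → Fm} (h : ∀ l < w, (eqc z β (τ l) a).size ≤ e) :
    (posF z w β τ a).size ≤ w * (e + 1) + 4 := by
  unfold posF
  rw [disjL_size, List.length_map, List.length_range]
  have h1 := psize_map_le (fun l => eqc z β (τ l) a) e (List.range w) (fun l hl =>
    h l (List.mem_range.1 hl))
  rw [List.length_range] at h1
  have h3 : w * (e + 1) = w * e + w := by ring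
  omega

theorem rhoF_size (z β : ℕ) (ρ : ℕ → ℕ) (t : ℕ → ℕ) (i : ℕ) :
    (rhoF z β ρ t i).size ≤ 2 ^ β * (β * 3 + 4) + 4 := by
  unfold rhoF
  rw [disjL_size, List.length_map]
  have h0 : ((List.range (2 ^ β)).filter (fun x => (ρ x).testBit i)).length ≤ 2 ^ β :=
    (List.length_filter_le _ _).trans (by rw [List.length_range])
  have h1 := psize_map_le (fun x => eqc z β (fun e => var (t e)) x) (β * 3 + 3)
    ((List.range (2 ^ β)).filter (fun x => (ρ x).testBit i)) (fun x _ =>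
      eqc_size (s := 1) (fun e _ => by simp [size]))
  have h2 := Nat.mul_le_mul_right (β * 3 + 4) h0
  have h3 : ((List.range (2 ^ β)).filter (fun x => (ρ x).testBit i)).length * (β * 3 + 4) =
    ((List.range (2 ^ β)).filter (fun x => (ρ x).testBit i)).length * (β * 3 + 3) +
    ((List.range (2 ^ β)).filter (fun x => (ρ x).testBit i)).length := by ring
  omega

theorem conjL_vsub {z : ℕ} {W : Finset ℕ} (hz : z ∈ W) {Ds : List Fm}
    (h : ∀ D ∈ Ds, D.vars ⊆ W) : (conjL z Ds).vars ⊆ W := by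
  intro n hn
  rcases conjL_vars hn with h1 | ⟨D, hD, h1⟩
  · rw [h1]; exact hz
  · exact h D hD h1

theorem disjL_vsub {z : ℕ} {W : Finset ℕ} (hz : z ∈ W) {Ds : List Fm}
    (h : ∀ D ∈ Ds, D.vars ⊆ W) : (disjL z Ds).vars ⊆ W := by
  intro n hn
  rcases disjL_vars hn with h1 | ⟨D, hD, h1⟩
  · rw [h1]; exact hz
  · exact h D hD h1

theorem eqc_vsub {z β a : ℕ} {W : Finset ℕ} (hz : z ∈ W) {τ : ℕ → Fm}
    (h : ∀ i < β, (τ i).vars ⊆ W) : (eqc z β τ a).vars ⊆ W := by
  unfold eqc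
  refine conjL_vsub hz fun D hD => ?_
  obtain ⟨i, hi, rfl⟩ := List.mem_map.1 hD
  have h1 := h i (List.mem_range.1 hi)
  split_ifs
  · exact h1
  · exact h1

theorem posF_vsub {z w β a : ℕ} {W : Finset ℕ} (hz : z ∈ W) {τ : ℕ → ℕ → Fm}
    (h : ∀ l < w, ∀ i < β, (τ l i).vars ⊆ W) : (posF z w β τ a).vars ⊆ W := by
  unfold posF
  refine disjL_vsub hz fun D hD => ?_
  obtain ⟨l, hl, rfl⟩ := List.mem_map.1 hD
  exact eqc_vsub hz (h l (List.mem_range.1 hl))

theorem rhoF_vsub {z β : ℕ} {W : Finset ℕ} (hz : z ∈ W) (ρ : ℕ → ℕ) {t : ℕ → ℕ} (i : ℕ)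
    (h : ∀ e < β, t e ∈ W) : (rhoF z β ρ t i).vars ⊆ W := by
  unfold rhoF
  refine disjL_vsub hz fun D hD => ?_
  obtain ⟨x, -, rfl⟩ := List.mem_map.1 hD
  exact eqc_vsub hz fun e he => by simpa [vars] using h e he

theorem subst_vsub {σ : ℕ → Fm} {W : Finset ℕ} : ∀ {A : Fm}, (∀ n ∈ A.vars, (σ n).vars ⊆ W) →
    (A.subst σ).vars ⊆ W := by
  intro A
  induction A with
  | var n => intro h; exact h n (by simp [vars])
  | neg A ih => intro h; exact ih h
  | and A B iA iB =>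
    intro h
    exact Finset.union_subset (iA fun n hn => h n (by simp [vars, hn]))
      (iB fun n hn => h n (by simp [vars, hn]))
  | or A B iA iB =>
    intro h
    exact Finset.union_subset (iA fun n hn => h n (by simp [vars, hn]))
      (iB fun n hn => h n (by simp [vars, hn]))
  | imp A B iA iB =>
    intro h
    exact Finset.union_subset (iA fun n hn => h n (by simp [vars, hn]))
      (iB fun n hn => h n (by simp [vars, hn]))

/-! ### the permutation of the codes -/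

open Classical in
/-- the permutation of the codes -/
noncomputable def rho (X : Finset ℕ) (code : ℕ → ℕ) (π : Equiv.Perm ℕ) (x : ℕ) : ℕ :=
  if h : ∃ u ∈ X, code u = x then code (π.symm h.choose) else x

theorem rho_code {X : Finset ℕ} {code : ℕ → ℕ} (hc : Set.InjOn code (X : Set ℕ))
    (π : Equiv.Perm ℕ) {u : ℕ} (hu : u ∈ X) : rho X code π (code u) = code (π.symm u) := by
  have h : ∃ v ∈ X, code v = code u := ⟨u, hu, rfl⟩
  unfold rho
  rw [dif_pos h]
  have h1 := h.choose_spec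
  have h2 : h.choose = u := hc h1.1 hu h1.2
  rw [h2]

theorem rho_not {X : Finset ℕ} {code : ℕ → ℕ} (π : Equiv.Perm ℕ) {x : ℕ}
    (hx : ¬ ∃ u ∈ X, code u = x) : rho X code π x = x := by
  unfold rho
  rw [dif_neg hx]

open Classical in
/-- the substitution -/
noncomputable def theta (z w β : ℕ) (t : ℕ → ℕ → ℕ) (ρ : ℕ → ℕ) (x : ℕ) : Fm :=
  if h : ∃ p : ℕ × ℕ, p.1 < w ∧ p.2 < β ∧ t p.1 p.2 = x then
    rhoF z β ρ (t h.choose.1) h.choose.2 else var x

theorem theta_t {z w β : ℕ} {t : ℕ → ℕ → ℕ} (ρ : ℕ → ℕ)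
    (ht : ∀ l i l' i', t l i = t l' i' → l = l' ∧ i = i') {l i : ℕ} (hl : l < w) (hi : i < β) :
    theta z w β t ρ (t l i) = rhoF z β ρ (t l) i := by
  have h : ∃ p : ℕ × ℕ, p.1 < w ∧ p.2 < β ∧ t p.1 p.2 = t l i := ⟨(l, i), hl, hi, rfl⟩
  unfold theta
  rw [dif_pos h]
  have h1 := ht _ _ _ _ h.choose_spec.2.2
  rw [h1.1, h1.2]

theorem theta_z {z w β : ℕ} {t : ℕ → ℕ → ℕ} (ρ : ℕ → ℕ) (hz : ∀ l i, t l i ≠ z) :
    theta z w β t ρ z = var z := by
  unfold theta
  rw [dif_neg]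
  rintro ⟨p, -, -, h⟩
  exact hz _ _ h

/-! ### the step -/

theorem t_dstep (F : List Rule) (hF : IsFrege F) (h1 : S_frepl F) (h2 : S_fsub F)
    (h3 : S_dperm F) : S_dstep F := by
  obtain ⟨c₁, hc₁⟩ := h2
  obtain ⟨c₂, hc₂⟩ := h1
  obtain ⟨c₃, hc₃⟩ := h3
  obtain ⟨c₄, hc₄⟩ := FO.schemaL hF [iff (var 0) (var 1)] (imp (var 0) (var 1)) (by
    intro v h; simp [eval, iff] at h ⊢; tauto)
  refine ⟨c₃ + 42 * c₂ + 21 * c₄ + 42 * c₁ + 21, ?_⟩
  intro z w β t X code W hS A π hAX hπ Γ hΓ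
  set δ := del z w β t code with hδ
  -- the permutation preserves the variables of `A` and `X`
  have hp1 : ∀ v ∈ A.vars, π v ∈ A.vars := by
    intro v hv
    by_contra hc
    have h4 := hπ _ hc
    have h5 := π.injective h4
    exact hc (by rw [h5]; exact hv)
  have hp2 : ∀ v ∈ A.vars, π.symm v ∈ A.vars := by
    intro v hv
    by_contra hc
    have h4 := hπ _ hc
    rw [Equiv.apply_symm_apply] at h4
    exact hc (by rw [← h4]; exact hv)
  have hp3 : ∀ u ∈ X, π.symm u ∈ X := by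
    intro u hu
    by_cases hv : u ∈ A.vars
    · exact hAX (hp2 u hv)
    · have h4 : π.symm u = u := by
        rw [Equiv.symm_apply_eq]
        exact (hπ u hv).symm
      rw [h4]
      exact hu
  set ρ := rho X code π with hρ
  have hρ1 : ∀ x < 2 ^ β, ρ x < 2 ^ β := by
    intro x hx
    by_cases h : ∃ u ∈ X, code u = x
    · obtain ⟨u, hu, rfl⟩ := h
      rw [hρ, rho_code hS.cinj π hu]
      exact hS.clt _ (hp3 u hu)
    · rw [hρ, rho_not π h]
      exact hx
  have hρ2 : ∀ v ∈ A.vars, ∀ x < 2 ^ β, (ρ x = code v ↔ x = code (π v)) := by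
    intro v hv x _
    by_cases h : ∃ u ∈ X, code u = x
    · obtain ⟨u, hu, rfl⟩ := h
      rw [hρ, rho_code hS.cinj π hu]
      constructor
      · intro h4
        have h5 := hS.cinj (hp3 u hu) (hAX hv) h4
        rw [← h5, Equiv.apply_symm_apply]
      · intro h4
        have h5 := hS.cinj hu (hAX (hp1 v hv)) h4
        rw [h5, Equiv.symm_apply_apply]
    · rw [hρ, rho_not π h]
      constructor
      · intro h4
        exact absurd ⟨v, hAX hv, h4.symm⟩ h
      · intro h4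
        exact absurd ⟨π v, hAX (hp1 v hv), h4.symm⟩ h
  set θ := theta z w β t ρ with hθ
  set δ' : ℕ → Fm := fun v => posF z w β (fun l i => rhoF z β ρ (t l) i) (code v) with hδ'
  have hsub : (A.subst δ).subst θ = A.subst δ' := by
    rw [subst_subst]
    refine subst_congr fun v _ => ?_
    rw [hδ, hδ']
    unfold del
    refine posF_sub (theta_z ρ hS.tz) w β (code v) _ _ fun l hl i hi => ?_
    exact theta_t ρ hS.tinj hl hi
  have hren : (A.rename π).subst δ = A.subst (fun v => δ (π v)) := by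
    unfold rename
    rw [subst_subst]
    rfl
  -- variables
  have hrv : ∀ l < w, ∀ i, (rhoF z β ρ (t l) i).vars ⊆ W := fun l hl i =>
    rhoF_vsub hS.zW ρ i fun e he => hS.tW l hl e he
  have hXW : (A.subst δ').vars ⊆ W := subst_vsub fun v _ => by
    rw [hδ']
    exact posF_vsub hS.zW fun l hl i _ => hrv l hl i
  have hYW : (A.subst (fun v => δ (π v))).vars ⊆ W := subst_vsub fun v _ => by
    rw [hδ]
    unfold del
    refine posF_vsub hS.zW fun l hl i hi => ?_
    simpa [vars] using hS.tW l hl i hi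
  -- sizes
  set Q := A.size + w + 2 ^ β with hQ
  have hA1 := Fm.size_pos A
  have hAQ : A.size ≤ Q := by rw [hQ, add_assoc]; exact Nat.le_add_right _ _
  have hQ1 : 1 ≤ Q := hA1.trans hAQ
  have hwQ : w ≤ Q := by
    rw [hQ, add_assoc, add_left_comm]
    exact Nat.le_add_right _ _
  have h2Q : 2 ^ β ≤ Q := Nat.le_add_left _ _
  have hwbQ : w + 2 ^ β ≤ Q := by
    rw [hQ, add_assoc]
    exact Nat.le_add_left _ _
  clear_value Q
  have hβQ : β ≤ Q := Nat.lt_two_pow_self.le.trans h2Q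
  have hpow : ∀ k : ℕ, k ≤ 30 → Q ^ k ≤ Q ^ 30 := fun k hk => Nat.pow_le_pow_right hQ1 hk
  have hQ2 : Q ≤ Q ^ 2 := Nat.le_self_pow (by norm_num) Q
  have hr : ∀ l i, (rhoF z β ρ (t l) i).size ≤ 11 * Q ^ 2 := by
    intro l i
    refine (rhoF_size z β ρ (t l) i).trans ?_
    calc 2 ^ β * (β * 3 + 4) + 4 ≤ Q * (Q * 3 + 4) + 4 := by gcongr
      _ = 3 * Q ^ 2 + 4 * Q + 4 := by ring
      _ ≤ 11 * Q ^ 2 := by linarith
  have he : ∀ l a, (eqc z β (fun i => rhoF z β ρ (t l) i) a).size ≤ 16 * Q ^ 3 := by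
    intro l a
    refine (eqc_size (s := 11 * Q ^ 2) fun i _ => hr l i).trans ?_
    have h6 : Q ≤ Q ^ 3 := Nat.le_self_pow (by norm_num) Q
    calc β * (11 * Q ^ 2 + 2) + 3 ≤ Q * (11 * Q ^ 2 + 2) + 3 := by gcongr
      _ = 11 * Q ^ 3 + 2 * Q + 3 := by ring
      _ ≤ 16 * Q ^ 3 := by linarith
  have hs' : ∀ v, (δ' v).size ≤ 21 * Q ^ 4 := by
    intro v
    refine (posF_size (e := 16 * Q ^ 3) fun l _ => he l (code v)).trans ?_
    have h6 : Q ≤ Q ^ 4 := Nat.le_self_pow (by norm_num) Q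
    calc w * (16 * Q ^ 3 + 1) + 4 ≤ Q * (16 * Q ^ 3 + 1) + 4 := by gcongr
      _ = 16 * Q ^ 4 + Q + 4 := by ring
      _ ≤ 21 * Q ^ 4 := by linarith
  have hs : ∀ v, (δ v).size ≤ 21 * Q ^ 4 := by
    intro v
    rw [hδ]
    unfold del
    refine (posF_size (e := β * 3 + 3) fun l _ => eqc_size (s := 1)
      (fun e _ => by simp [size])).trans ?_
    have h6 : Q ≤ Q ^ 4 := Nat.le_self_pow (by norm_num) Q
    have h7 : Q ^ 2 ≤ Q ^ 4 := Nat.pow_le_pow_right hQ1 (by norm_num)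
    calc w * (β * 3 + 3 + 1) + 4 ≤ Q * (Q * 3 + 3 + 1) + 4 := by gcongr
      _ = 3 * Q ^ 2 + 4 * Q + 4 := by ring
      _ ≤ 21 * Q ^ 4 := by linarith
  have hsb : ∀ σ : ℕ → Fm, (∀ v, (σ v).size ≤ 21 * Q ^ 4) → (A.subst σ).size ≤ 21 * Q ^ 5 := by
    intro σ hσ
    refine (size_subst_le (M := 21 * Q ^ 4) (Nat.mul_pos (by norm_num) (Nat.pow_pos hQ1))
      fun v _ => hσ v).trans ?_
    calc A.size * (21 * Q ^ 4) ≤ Q * (21 * Q ^ 4) := by gcongr
      _ = 21 * Q ^ 5 := by ring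
  have hXs := hsb δ' hs'
  have hYs := hsb (fun v => δ (π v)) fun v => hs (π v)
  have hM1 : 1 ≤ 21 * Q ^ 5 := Nat.mul_pos (by norm_num) (Nat.pow_pos hQ1)
  -- the equivalence
  have hiff : ∀ v ∈ A.vars, FC F (iff (δ' v) (δ (π v))) (c₃ * (w + 2 ^ β) ^ 20) := by
    intro v hv
    exact hc₃ z w β (code v) (code (π v)) t ρ hS.tz (fun l i i' h => (hS.tinj _ _ _ _ h).2)
      (hS.clt _ (hAX hv)) (hS.clt _ (hAX (hp1 v hv))) hρ1 (hρ2 v hv)
  have hrepl := hc₂ A δ' (fun v => δ (π v)) (c₃ * (w + 2 ^ β) ^ 20) (21 * Q ^ 5) hXs hYs hiff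
  have himp : FC F (imp (A.subst δ') (A.subst (fun v => δ (π v))))
      (A.size * (c₃ * (w + 2 ^ β) ^ 20) + c₂ * (21 * Q ^ 5) * (A.size + 1) +
        c₄ * (21 * Q ^ 5)) := by
    refine FO.Can.cut hrepl ?_
    refine hc₄ [A.subst δ', A.subst (fun v => δ (π v))] (21 * Q ^ 5) hM1 ?_ _ ?_
    · intro Z hZ
      rcases List.mem_cons.1 hZ with rfl | hZ
      · exact hXs
      · rcases List.mem_cons.1 hZ with rfl | hZ
        · exact hYs
        · exact absurd hZ List.not_mem_nil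
    · intro Z hZ
      rw [List.mem_singleton] at hZ
      subst hZ
      exact Or.inr (List.mem_singleton.2 rfl)
  have hcan := hc₁ W _ _ _ hXW hYW himp {A.subst δ'} rfl
  intro L hL hΓL
  have hX' : SubProof F W (A.subst δ' :: L) :=
    SubProof.sub hL ⟨A.subst δ, hΓL _ hΓ, θ, hsub.symm⟩ hXW
  obtain ⟨D, d1, d2, d3⟩ := hcan (A.subst δ' :: L) hX' (by
    intro Z hZ
    rw [Set.mem_singleton_iff] at hZ
    rw [hZ]
    exact List.mem_cons_self)
  refine ⟨D ++ [A.subst δ'], ?_, ?_, ?_⟩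
  · rw [List.append_assoc]
    exact d1
  · rw [List.append_assoc, hren]
    exact d2
  · rw [psize_append]
    have e1 : psize [A.subst δ'] ≤ 21 * Q ^ 30 := by
      rw [psize_cons]
      have := hpow 5 (by norm_num)
      simp only [psize, List.map_nil, List.sum_nil]
      linarith
    have e2 : A.size * (c₃ * (w + 2 ^ β) ^ 20) ≤ c₃ * Q ^ 30 := by
      calc A.size * (c₃ * (w + 2 ^ β) ^ 20) ≤ Q * (c₃ * Q ^ 20) := by gcongr
        _ = c₃ * Q ^ 21 := by ring
        _ ≤ c₃ * Q ^ 30 := Nat.mul_le_mul_left _ (hpow 21 (by norm_num))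
    have e3 : c₂ * (21 * Q ^ 5) * (A.size + 1) ≤ 42 * c₂ * Q ^ 30 := by
      calc c₂ * (21 * Q ^ 5) * (A.size + 1) ≤ c₂ * (21 * Q ^ 5) * (2 * Q) := by
            gcongr
            linarith
        _ = 42 * c₂ * Q ^ 6 := by ring
        _ ≤ 42 * c₂ * Q ^ 30 := Nat.mul_le_mul_left _ (hpow 6 (by norm_num))
    have e4 : c₄ * (21 * Q ^ 5) ≤ 21 * c₄ * Q ^ 30 := by
      calc c₄ * (21 * Q ^ 5) = 21 * c₄ * Q ^ 5 := by ring
        _ ≤ 21 * c₄ * Q ^ 30 := Nat.mul_le_mul_left _ (hpow 5 (by norm_num))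
    have e5 : c₁ * ((A.subst δ').size + (A.subst (fun v => δ (π v))).size) ≤
        42 * c₁ * Q ^ 30 := by
      calc c₁ * ((A.subst δ').size + (A.subst (fun v => δ (π v))).size)
          ≤ c₁ * (21 * Q ^ 5 + 21 * Q ^ 5) := by gcongr
        _ = 42 * c₁ * Q ^ 5 := by ring
        _ ≤ 42 * c₁ * Q ^ 30 := Nat.mul_le_mul_left _ (hpow 5 (by norm_num))
    have e6 : (c₃ + 42 * c₂ + 21 * c₄ + 42 * c₁ + 21) * Q ^ 30 = c₃ * Q ^ 30 +
        42 * c₂ * Q ^ 30 + 21 * c₄ * Q ^ 30 + 42 * c₁ * Q ^ 30 + 21 * Q ^ 30 := by ring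
    rw [e6]
    linarith

end Pool.Agent.H586P.T_dstep
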