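import Pool.Agent.H586P.Final2
import Pool.Agent.H586P.Defs3
import Pool.Agent.H586P.T_tt
import Pool.Agent.H586P.T_frepl
import Pool.Agent.H586P.T_fsub
import Pool.Agent.H586P.T_dperm
import Pool.Agent.H586T.Dstep
import Pool.Agent.H586P.T_dloop
import Pool.Agent.H586P.T_dfin
import Pool.Agent.H586P.T_codeenum
import Pool.Agent.H586P.T_efsub
import Pool.Agent.H586P.T_lin
import Pool.Agent.H586P.T_ss
import Pool.Agent.H586P.T_oh
import Pool.Agent.H586P.T_eval3
import Pool.Agent.H586P.T_wstep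
import Pool.Agent.H586T.Wsim
import Pool.Agent.H586P.T_basel
import Pool.Agent.H586P.T_base0
import Pool.Agent.H586P.T_move
import Pool.Agent.H586P.T_erec
import Pool.Agent.H586T.Efin
import Pool.Agent.H586P.T_back

set_option autoImplicit false

namespace Pool.Agent.H586P

open Pool.Agent.H555R2.PF Pool.Agent.H555R2.PF.Fm

theorem final3 (F : List Rule) (hF : IsFrege F) : PSim F ↔ LSim F :=
  assemble3 F hF (T_ren.t_ren F hF) (T_repl.t_repl F hF) (T_cintro.t_cintro F hF)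
    (T_disjT.t_disjT F hF) (T_disjF.t_disjF F hF) (T_dt.t_dt F hF) (T_ev.t_ev F hF)
    (T_val.t_val F hF) (s_fworld F hF) (T_efflip.t_efflip F) (s_comb F hF)
    (T_tt.t_tt F) (T_frepl.t_frepl F) (T_fsub.t_fsub F) (T_dperm.t_dperm F)
    (T_dstep.t_dstep F) (T_dloop.t_dloop F) (T_dfin.t_dfin F) (T_efsub.t_efsub F)
    T_codeenum.t_code T_codeenum.t_enum (T_lin.t_lin F) (T_ss.t_ss F) (T_oh.t_ohuse F)
    (T_oh.t_ohcase F) (T_oh.t_ohintro F) (T_eval3.t_deval F) (T_eval3.t_eqeval F)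
    (T_eval3.t_cdsub F) (T_wstep.t_wstep F) (T_wsim.t_wsim F) (T_basel.t_basel F)
    (T_base0.t_base0 F) (T_move.t_move F) (T_erec.t_erec F) (T_efin.t_efin F)
    (T_back.t_back F)

end Pool.Agent.H586P
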