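import Pool.Agent.H586T.Step

/-!
# Local substitution rules: eliminating the extension variables
-/

set_option autoImplicit false

namespace Pool.Agent.H586T

open Pool.Agent.H586S Pool.Agent.H555R2.PF Pool.Agent.H555R2.PF.Fm Pool.Agent.H586P Filter
open Pool.Agent.H543R3.PP Pool.Agent.H586P.T_dline

/-- blocks of variables for the extension variables `q 0, …, q (k-1)` -/
structure Blk (w n₀ : ℕ) (A : Fm) (k z : ℕ) (q : ℕ → ℕ) (φ : ℕ → Fm)
    (π : ℕ → Equiv.Perm ℕ) : Prop where
  h0 : ∀ i < k, π i n₀ = q i
  hz : ∀ i < k, ∀ n < w, π i n ≠ z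
  hA : ∀ i < k, ∀ n < w, π i n ∉ A.vars
  hφ : ∀ i < k, ∀ n < w, ∀ j ≤ i, π i n ∉ (φ j).vars
  hq : ∀ i < k, ∀ n < w, ∀ j < i, π i n ≠ q j
  hd : ∀ i < k, ∀ j < k, i ≠ j → ∀ n < w, ∀ n' < w, π i n ≠ π j n'

def swapF (w b n : ℕ) : ℕ := if n < w then n + b else if b ≤ n ∧ n < b + w then n - b else n

theorem swapF_invol {w b : ℕ} (h : w ≤ b) : Function.Involutive (swapF w b) := by
  intro n
  simp only [swapF]
  split_ifs <;> omega

theorem blk_exists {w n₀ : ℕ} (hn : n₀ < w) {A : Fm} {k z : ℕ} {q : ℕ → ℕ} {φ : ℕ → Fm}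
    (hG : Good A k q φ) (hz : ∀ i < k, q i ≠ z) : ∃ π, Blk w n₀ A k z q φ π := by
  obtain ⟨g1, g2, g3⟩ := hG
  set S : Finset ℕ := A.vars ∪ {z} ∪ (Finset.range k).image q ∪
    (Finset.range k).biUnion (fun i => (φ i).vars) with hS
  set N := S.sup id + 1 + w with hN
  have hSN : ∀ x ∈ S, x < N := by
    intro x hx
    have : x ≤ S.sup id := Finset.le_sup (f := id) hx
    omega
  have hA : ∀ x ∈ A.vars, x < N := fun x hx => hSN x (by simp [hS, hx])
  have hzN : z < N := hSN z (by simp [hS])
  have hqN : ∀ i < k, q i < N := fun i hi => hSN _ (by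
    simp only [hS, Finset.mem_union, Finset.mem_image, Finset.mem_range]
    exact Or.inl (Or.inr ⟨i, hi, rfl⟩))
  have hφN : ∀ i < k, ∀ x ∈ (φ i).vars, x < N := fun i hi x hx => hSN _ (by
    simp only [hS, Finset.mem_union, Finset.mem_biUnion, Finset.mem_range]
    exact Or.inr ⟨i, hi, hx⟩)
  have hwb : ∀ i, w ≤ N + i * w := fun i => by
    have := Nat.zero_le (i * w); omega
  set π : ℕ → Equiv.Perm ℕ := fun i =>
    ((swapF_invol (hwb i)).toPerm _).trans (Equiv.swap (N + i * w + n₀) (q i)) with hπ
  have val : ∀ i < k, ∀ n < w, π i n = if n = n₀ then q i else n + (N + i * w) := by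
    intro i hi n hn'
    have h1 : π i n = Equiv.swap (N + i * w + n₀) (q i) (n + (N + i * w)) := by
      simp only [hπ, Equiv.trans_apply, Function.Involutive.coe_toPerm]
      rw [swapF, if_pos hn']
    rw [h1]
    split_ifs with h2
    · subst h2
      rw [add_comm n, Equiv.swap_apply_left]
    · rw [Equiv.swap_apply_of_ne_of_ne]
      · omega
      · have := hqN i hi
        have := Nat.zero_le (i * w)
        omega
  refine ⟨π, ⟨?_, ?_, ?_, ?_, ?_, ?_⟩⟩
  · intro i hi
    rw [val i hi n₀ hn, if_pos rfl]
  · intro i hi n hn'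
    rw [val i hi n hn']
    have := Nat.zero_le (i * w)
    split_ifs
    · exact hz i hi
    · omega
  · intro i hi n hn'
    rw [val i hi n hn']
    have := Nat.zero_le (i * w)
    split_ifs
    · exact g1 i hi
    · intro h
      have := hA _ h
      omega
  · intro i hi n hn' j hj
    rw [val i hi n hn']
    have := Nat.zero_le (i * w)
    split_ifs
    · exact g2 i hi j hj
    · intro h
      have := hφN j (by omega) _ h
      omega
  · intro i hi n hn' j hj
    rw [val i hi n hn']
    have := Nat.zero_le (i * w)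
    split_ifs
    · exact g3 i hi j hj
    · have := hqN j (by omega)
      omega
  · intro i hi j hj hij n hn' n' hn''
    rw [val i hi n hn', val j hj n' hn'']
    have a1 := Nat.zero_le (i * w)
    have a2 := Nat.zero_le (j * w)
    have a3 := hqN i hi
    have a4 := hqN j hj
    split_ifs
    · rcases lt_or_gt_of_ne hij with h | h
      · exact fun e => g3 j hj i h e.symm
      · exact g3 i hi j h
    · omega
    · omega
    · rcases lt_or_gt_of_ne hij with h | h
      · have : (i + 1) * w ≤ j * w := Nat.mul_le_mul_right _ h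
        have : (i + 1) * w = i * w + w := by ring
        omega
      · have : (j + 1) * w ≤ i * w := Nat.mul_le_mul_right _ h
        have : (j + 1) * w = j * w + w := by ring
        omega

theorem mem_extL' {q : ℕ → ℕ} {φ : ℕ → Fm} {D : Fm} : ∀ {m : ℕ}, D ∈ extL q φ m →
    ∃ i < m, D = iff (var (q i)) (φ i) := by
  intro m
  induction m with
  | zero => intro h; simp [extL] at h
  | succ m ih =>
    intro h
    simp only [extL, List.mem_cons] at h
    rcases h with h | h
    · exact ⟨m, by omega, h⟩
    · obtain ⟨i, h1, h2⟩ := ih h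
      exact ⟨i, by omega, h2⟩

theorem extL_mono (q : ℕ → ℕ) (φ : ℕ → Fm) : ∀ a b, a ≤ b →
    psize (extL q φ a) ≤ psize (extL q φ b) := by
  intro a b hab
  induction b with
  | zero => obtain rfl : a = 0 := by omega
            exact le_rfl
  | succ b ih =>
    rcases Nat.lt_or_ge a (b + 1) with h | h
    · have := ih (by omega)
      simp only [extL, psize_cons]; omega
    · obtain rfl : a = b + 1 := by omega
      exact le_rfl

/-- the literals of the blocks `m, …, m + j - 1` -/
def blkL (v : ℕ → Bool) (w : ℕ) (π : ℕ → Equiv.Perm ℕ) : ℕ → ℕ → List Fm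
  | _, 0 => []
  | m, j + 1 => lits v (fun n => var (π m n)) w ++ blkL v w π (m + 1) j

theorem mem_blkL {v : ℕ → Bool} {w : ℕ} {π : ℕ → Equiv.Perm ℕ} {X : Fm} : ∀ {m j : ℕ},
    X ∈ blkL v w π m j → ∃ i, m ≤ i ∧ i < m + j ∧
      ∃ n < w, X = if v n = true then var (π i n) else neg (var (π i n)) := by
  intro m j
  induction j generalizing m with
  | zero => intro h; simp [blkL] at h
  | succ j ih =>
    intro h
    simp only [blkL, List.mem_append] at h
    rcases h with h | h
    · obtain ⟨n, h1, h2⟩ := mem_lits.1 h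
      exact ⟨m, le_rfl, by omega, n, h1, h2⟩
    · obtain ⟨i, h1, h2, h3⟩ := ih h
      exact ⟨i, by omega, by omega, h3⟩

theorem lits_psize (v : ℕ → Bool) (f : ℕ → ℕ) (w : ℕ) :
    psize (lits v (fun n => var (f n)) w) ≤ 2 * w := by
  have : ∀ l : List ℕ, psize (l.map fun n => if v n = true then var (f n) else neg (var (f n))) ≤
      2 * l.length := by
    intro l
    induction l with
    | nil => simp [psize]
    | cons a l ih =>
      rw [List.map_cons, psize_cons, List.length_cons]
      have : (if v a = true then var (f a) else neg (var (f a))).size ≤ 2 := by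
        split_ifs <;> simp [size]
      omega
  have h := this (List.range w)
  rw [List.length_range] at h
  exact h

theorem blkL_psize (v : ℕ → Bool) (w : ℕ) (π : ℕ → Equiv.Perm ℕ) : ∀ m j : ℕ,
    psize (blkL v w π m j) ≤ 2 * w * j ∧ (blkL v w π m j).length = w * j := by
  intro m j
  induction j generalizing m with
  | zero => simp [blkL, psize]
  | succ j ih =>
    obtain ⟨h1, h2⟩ := ih (m + 1)
    have h3 := lits_psize v (π m) w
    simp only [blkL, psize_append, List.length_append, lits_length, h2]
    constructor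
    · nlinarith
    · ring

/-- the variables of the blocks are not in the remaining extension axioms -/
theorem conj_fresh {w n₀ : ℕ} {A : Fm} {k z : ℕ} {q : ℕ → ℕ} {φ : ℕ → Fm}
    {π : ℕ → Equiv.Perm ℕ} (hB : Blk w n₀ A k z q φ π) {m : ℕ} (hm : m < k) {n : ℕ} (hn : n < w) :
    π m n ∉ (conjL z (extL q φ m)).vars := by
  intro h
  rcases conjL_vars h with h | ⟨D, hD, h⟩
  · exact hB.hz m hm n hn h
  · obtain ⟨i, i1, rfl⟩ := mem_extL' hD
    simp only [iff, vars, Finset.mem_union, Finset.mem_singleton] at h
    have a1 := hB.hq m hm n hn i i1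
    have a2 := hB.hφ m hm n hn i (by omega)
    tauto

theorem loop1 {F : List Rule} (hF : IsFrege F) {H : Set (ℕ → Fm)} {w n₀ : ℕ} (hn : n₀ < w)
    {v u : ℕ → Bool} (h : Reach H w v u) (hne : u n₀ ≠ v n₀) (r₀ : Prop) : ∃ c : ℕ,
    ∀ (A : Fm) (k z : ℕ) (q : ℕ → ℕ) (φ : ℕ → Fm) (π : ℕ → Equiv.Perm ℕ) (M : ℕ),
    Blk w n₀ A k z q φ π → psize (extL q φ k) + A.size + 3 * w * k + k + 20 ≤ M →
    ∀ j ≤ k, Gen (SProof F H r₀) {imp (conjL z (extL q φ k)) A}
      [imp (conjL z (extL q φ (k - j))) (imps (blkL v w π (k - j) j) A)] (c * M * j) := by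
  obtain ⟨c, hc⟩ := bstep hF hn h hne r₀
  refine ⟨c, fun A k z q φ π M hB hM j => ?_⟩
  induction j with
  | zero =>
    intro _
    exact (Gen.hyp (Set.mem_singleton _)).le (Nat.zero_le _)
  | succ j ih =>
    intro hj
    have r := ih (by omega)
    set m := k - (j + 1) with hm
    have hkj : k - j = m + 1 := by omega
    rw [hkj] at r
    have hmk : m < k := by omega
    have s1 := extL_mono q φ (m + 1) k (by omega)
    have s2 := extL_mono q φ m k (by omega)
    have s3 : psize (extL q φ (m + 1)) = (iff (var (q m)) (φ m)).size + psize (extL q φ m) := by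
      simp only [extL, psize_cons]
    have s4 : (iff (var (q m)) (φ m)).size = 2 * (φ m).size + 5 := by
      simp only [iff, size]; omega
    have s5 : (conjL z (extL q φ m)).size = psize (extL q φ m) + m + 3 := by
      rw [conjL_size, length_extL]
    obtain ⟨s6, s7⟩ := blkL_psize v w π (m + 1) j
    have s8 : (imps (blkL v w π (m + 1) j) A).size ≤ 3 * w * j + A.size := by
      rw [imps_size, s7]
      nlinarith
    have s9 : 3 * w * j ≤ 3 * w * k := Nat.mul_le_mul_left _ (by omega)
    have r2 := hc (π m) (φ m) (conjL z (extL q φ m)) (imps (blkL v w π (m + 1) j) A) M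
      (by omega) (by omega) (by omega) (by
      intro n hn'
      refine ⟨hB.hφ m hmk n hn' m le_rfl, conj_fresh hB hmk hn', ?_⟩
      intro hx
      rcases vars_imps hx with ⟨X, hX, hx⟩ | hx
      · obtain ⟨i, i1, i2, n', hn'', rfl⟩ := mem_blkL hX
        have : π m n = π i n' := by
          split_ifs at hx <;> simpa [vars] using hx
        exact hB.hd m hmk i (by omega) (by omega) n hn' n' hn'' this
      · exact hB.hA m hmk n hn' hx)
    rw [hB.h0 m hmk, ← imps_append] at r2
    have comb := r2.mono (Γ' := {imp (conjL z (extL q φ k)) A} ∪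
      {B | B ∈ [imp (conjL z (extL q φ (m + 1))) (imps (blkL v w π (m + 1) j) A)]})
      (by intro X hX; right; simpa [extL, conjL] using hX) le_rfl
    refine (r.cut comb).le ?_
    nlinarith

/-- an assignment to the variables below `w` -/
def extA (w : ℕ) (t : Fin w → Bool) (n : ℕ) : Bool := if h : n < w then t ⟨n, h⟩ else false

theorem loop3 {F : List Rule} (hF : IsFrege F) {H : Set (ℕ → Fm)} {w n₀ : ℕ} (hn : n₀ < w)
    (hH : ∀ v : ℕ → Bool, ∃ u : ℕ → Bool, Reach H w v u ∧ u n₀ ≠ v n₀) (r₀ : Prop) : ∃ c : ℕ,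
    ∀ (A : Fm) (k z : ℕ) (q : ℕ → ℕ) (φ : ℕ → Fm) (π : ℕ → Equiv.Perm ℕ) (M : ℕ),
    Blk w n₀ A k z q φ π → psize (extL q φ k) + A.size + 3 * w * k + k + 20 ≤ M →
    ∀ j ≤ k, Gen (SProof F H r₀) {imp (conjL z (extL q φ k)) A}
      [imp (conjL z (extL q φ (k - j))) A] (c * M * j) := by
  choose u hu hune using hH
  choose c hc using fun t : Fin w → Bool => bstep hF hn (hu (extA w t)) (hune (extA w t)) r₀
  set T : List (Fin w → Bool) := (Finset.univ : Finset (Fin w → Bool)).toList with hT
  obtain ⟨d, hd⟩ := gschema hF (T.map fun t =>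
    imp (var (w + 1)) (imps (lits (extA w t) var w) (var (w + 2))))
    (imp (var (w + 1)) (var (w + 2))) (by
    intro e he
    classical
    have h1 := he _ (List.mem_map.2 ⟨fun i => decide (e i), by simp [hT], rfl⟩)
    simp only [eval] at h1 ⊢
    intro h2
    have h3 := h1 h2
    rw [imps_eval, lits_eval] at h3
    apply h3
    intro n hn'
    simp [eval, extA, hn'])
  set C := ∑ t, c t with hC
  have hcC : ∀ t, c t ≤ C := fun t =>
    Finset.single_le_sum (f := c) (fun _ _ => Nat.zero_le _) (Finset.mem_univ t)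
  refine ⟨T.length * C + d, fun A k z q φ π M hB hM j => ?_⟩
  induction j with
  | zero =>
    intro _
    exact (Gen.hyp (Set.mem_singleton _)).le (Nat.zero_le _)
  | succ j ih =>
    intro hj
    have r := ih (by omega)
    set m := k - (j + 1) with hm
    have hkj : k - j = m + 1 := by omega
    rw [hkj] at r
    have hmk : m < k := by omega
    have s1 := extL_mono q φ (m + 1) k (by omega)
    have s2 := extL_mono q φ m k (by omega)
    have s3 : psize (extL q φ (m + 1)) = (iff (var (q m)) (φ m)).size + psize (extL q φ m) := by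
      simp only [extL, psize_cons]
    have s4 : (iff (var (q m)) (φ m)).size = 2 * (φ m).size + 5 := by
      simp only [iff, size]; omega
    have s5 : (conjL z (extL q φ m)).size = psize (extL q φ m) + m + 3 := by
      rw [conjL_size, length_extL]
    have s9 : 0 ≤ 3 * w * k := Nat.zero_le _
    have hM1 : 1 ≤ M := by omega
    have r1 : ∀ t ∈ T, Gen (SProof F H r₀) ({imp (conjL z (extL q φ k)) A} ∪
        {B | B ∈ [imp (conjL z (extL q φ (m + 1))) A]})
        [imp (conjL z (extL q φ m)) (imps (lits (extA w t) (fun n => var (π m n)) w) A)]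
        (C * M) := by
      intro t _
      have r2 := hc t (π m) (φ m) (conjL z (extL q φ m)) A M
        (by omega) (by omega) (by omega) (fun n hn' =>
          ⟨hB.hφ m hmk n hn' m le_rfl, conj_fresh hB hmk hn', hB.hA m hmk n hn'⟩)
      rw [hB.h0 m hmk] at r2
      exact r2.mono (by intro X hX; right; simpa [extL, conjL] using hX)
        (Nat.mul_le_mul_right _ (hcC t))
    have r3 := Gen.many _ _ T r1
    set σ : ℕ → Fm := fun n => if n < w then var (π m n) else
      if n = w + 1 then conjL z (extL q φ m) else A with hσ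
    have t0 : ∀ n < w, σ n = var (π m n) := fun n hn => by simp only [hσ]; rw [if_pos hn]
    have t1 : σ (w + 1) = conjL z (extL q φ m) := by simp [hσ]
    have t2 : σ (w + 2) = A := by simp [hσ]
    have r4 := hd Set.univ (SProof F H r₀) (sSys F H r₀) σ M hM1 (by
      intro n; simp only [hσ]; split_ifs
      · simpa [size] using hM1
      · omega
      · omega) (fun n => ok_univ _)
      ({imp (conjL z (extL q φ k)) A} ∪ {B | B ∈ [imp (conjL z (extL q φ (m + 1))) A]} ∪
        {B | B ∈ T.map fun t => imp (conjL z (extL q φ m))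
          (imps (lits (extA w t) (fun n => var (π m n)) w) A)}) (by
      intro X hX
      obtain ⟨t, ht, rfl⟩ := List.mem_map.1 hX
      right
      refine List.mem_map.2 ⟨t, ht, ?_⟩
      simp only [subst, t1, t2, imps_subst]
      rw [lits_subst _ _ (fun n => var (π m n)) w _ (fun n hn => by
        simp only [subst]; exact t0 n hn)])
    simp only [subst, t1, t2] at r4
    refine (r.cut (r3.cut r4)).le ?_
    have e1 : T.length * (C * M) = T.length * C * M := by ring
    rw [e1]
    nlinarith

end Pool.Agent.H586T
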