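import Pool.Agent.H586T.Defs

/-!
# Local substitution rules: task T3s (reachability)
-/

set_option autoImplicit false

namespace Pool.Agent.H586T

open Pool.Agent.H586S Pool.Agent.H555R2.PF Pool.Agent.H555R2.PF.Fm Pool.Agent.H586P Filter

theorem t3_ev_subst (v : ℕ → Bool) (σ : ℕ → Fm) (A : Fm) :
    ev v (A.subst σ) = ev (fun n => ev v (σ n)) A := by
  induction A with
  | var n => rfl
  | neg A ih => simp only [subst, ev, ih]
  | and A B iA iB => simp only [subst, ev, iA, iB]
  | or A B iA iB => simp only [subst, ev, iA, iB]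
  | imp A B iA iB => simp only [subst, ev, iA, iB]

theorem t3_ev_congr {v w : ℕ → Bool} : ∀ {A : Fm}, (∀ n ∈ A.vars, v n = w n) →
    ev v A = ev w A := by
  intro A
  induction A with
  | var n => intro h; exact h n (by simp [vars])
  | neg A ih => intro h; simp only [ev]; rw [ih h]
  | and A B iA iB =>
    intro h; simp only [ev]
    rw [iA fun n hn => h n (by simp [vars, hn]), iB fun n hn => h n (by simp [vars, hn])]
  | or A B iA iB =>
    intro h; simp only [ev]
    rw [iA fun n hn => h n (by simp [vars, hn]), iB fun n hn => h n (by simp [vars, hn])]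
  | imp A B iA iB =>
    intro h; simp only [ev]
    rw [iA fun n hn => h n (by simp [vars, hn]), iB fun n hn => h n (by simp [vars, hn])]

theorem t3_ev_eval (v : ℕ → Bool) (A : Fm) :
    ev v A = true ↔ A.eval (fun n => v n = true) := by
  induction A with
  | var n => rfl
  | neg A ih => simp only [ev, eval, ← ih]; simp
  | and A B iA iB => simp only [ev, eval, ← iA, ← iB]; simp
  | or A B iA iB => simp only [ev, eval, ← iA, ← iB]; simp
  | imp A B iA iB =>
    simp only [ev, eval, ← iA, ← iB]
    cases ev v A <;> cases ev v B <;> simp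

theorem t3_bit {H : Set (ℕ → Fm)} (h0 : ∃ θ ∈ H, ¬ Fixes False θ)
    (h1 : ∃ θ ∈ H, ¬ Fixes True θ) (b : Bool) :
    ∃ θ ∈ H, ∃ i, ev (fun _ => b) (θ i) = !b := by
  cases b with
  | false =>
    obtain ⟨θ, hθ, h⟩ := h0
    unfold Fixes at h
    push Not at h
    obtain ⟨i, hi⟩ := h
    refine ⟨θ, hθ, i, ?_⟩
    show ev (fun _ => false) (θ i) = true
    rw [t3_ev_eval]
    have e : (fun _ : ℕ => (false = true : Prop)) = fun _ : ℕ => False := by
      funext n; simp
    rw [e]
    rcases hi with hi | hi
    · exact hi.1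
    · exact hi.2.elim
  | true =>
    obtain ⟨θ, hθ, h⟩ := h1
    unfold Fixes at h
    push Not at h
    obtain ⟨i, hi⟩ := h
    refine ⟨θ, hθ, i, ?_⟩
    show ev (fun _ => true) (θ i) = false
    rw [← Bool.not_eq_true, t3_ev_eval]
    have e : (fun _ : ℕ => (true = true : Prop)) = fun _ : ℕ => True := by
      funext n; simp
    rw [e]
    rcases hi with hi | hi
    · exact hi.2.elim
    · exact hi.1

theorem t3_mono {θ : ℕ → Fm} {a b : ℕ} (h : InB a θ) (hab : a ≤ b) : InB b θ := by
  refine ⟨fun n hn => h.1 n (hab.trans hn), fun n hn m hm => ?_⟩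
  rcases lt_or_ge n a with hna | hna
  · exact (h.2 n hna m hm).trans_le hab
  · rw [h.1 n hna] at hm
    simp only [vars, Finset.mem_singleton] at hm
    rw [hm]; exact hn

theorem t3_loc {θ : ℕ → Fm} (h : Loc θ) : ∃ w, InB w θ := by
  obtain ⟨w, hw⟩ := h
  let S : Finset ℕ := (Finset.range w).biUnion fun n => (θ n).vars
  refine ⟨max w (S.sup id + 1), fun n hn => hw n ((le_max_left _ _).trans hn), ?_⟩
  intro n hn m hm
  rcases lt_or_ge n w with hnw | hnw
  · have h1 : m ∈ S := Finset.mem_biUnion.2 ⟨n, Finset.mem_range.2 hnw, hm⟩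
    have h2 : m ≤ S.sup id := Finset.le_sup (f := id) h1
    exact lt_of_lt_of_le (Nat.lt_succ_of_le h2) (le_max_right _ _)
  · rw [hw n hnw] at hm
    simp only [vars, Finset.mem_singleton] at hm
    rw [hm]; exact hn

theorem t3_ev_place (v : ℕ → Bool) (θ : ℕ → Fm) (ρ : Equiv.Perm ℕ) (n : ℕ) :
    ev v (place θ ρ n) = ev (fun m => v (ρ m)) (θ (ρ.symm n)) := by
  unfold place
  rw [t3_ev_subst]
  rfl

theorem t3_place_var {θ : ℕ → Fm} {w0 : ℕ} (h : InB w0 θ) (ρ : Equiv.Perm ℕ) {n : ℕ}
    (hn : w0 ≤ ρ.symm n) : place θ ρ n = var n := by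
  unfold place
  rw [h.1 _ hn]
  simp [subst]

theorem t3_place {θ : ℕ → Fm} {w0 w : ℕ} (h : InB w0 θ) (ρ : Equiv.Perm ℕ)
    (hρ : ∀ n < w0, ρ n < w) : InB w (place θ ρ) := by
  refine ⟨fun n hn => ?_, fun n hn m hm => ?_⟩
  · apply t3_place_var h
    by_contra hc
    push Not at hc
    have := hρ _ hc
    rw [Equiv.apply_symm_apply] at this
    omega
  · rcases lt_or_ge (ρ.symm n) w0 with hc | hc
    · have e : place θ ρ n = (θ (ρ.symm n)).rename ρ := rfl
      rw [e, vars_rename] at hm
      obtain ⟨k, hk, rfl⟩ := Finset.mem_image.1 hm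
      exact hρ _ (h.2 _ hc k hk)
    · rw [t3_place_var h ρ hc] at hm
      simp only [vars, Finset.mem_singleton] at hm
      rw [hm]; exact hn

/-- an injection of `Fin w0` into a large finite set -/
theorem t3_inj (w0 : ℕ) (S : Finset ℕ) (hS : w0 ≤ S.card) :
    ∃ g : Fin w0 → ℕ, Function.Injective g ∧ ∀ k, g k ∈ S := by
  obtain ⟨e⟩ := Function.Embedding.nonempty_of_card_le (α := Fin w0) (β := S)
    (by simpa using hS)
  exact ⟨fun k => (e k : ℕ), fun a b hab => e.injective (Subtype.ext hab), fun k => (e k).2⟩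

theorem t3_perm (w0 : ℕ) (g : Fin w0 → ℕ) (hg : Function.Injective g) :
    ∃ ρ : Equiv.Perm ℕ, ∀ k : Fin w0, ρ k = g k :=
  Equiv.Perm.exists_extending_pair (fun k : Fin w0 => (k : ℕ)) g Fin.val_injective hg

theorem t3s : S_T3s := by
  intro H hloc h0 h1
  classical
  have hb := t3_bit h0 h1
  choose θ hθ i hi using hb
  have hl : ∀ b, ∃ w, InB w (θ b) := fun b => t3_loc (hloc _ (hθ b))
  choose W hW using hl
  obtain ⟨w0, hw0⟩ : ∃ w0, ∀ b, InB w0 (θ b) := by
    refine ⟨max (W false) (W true), fun b => ?_⟩
    cases b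
    · exact t3_mono (hW false) (le_max_left _ _)
    · exact t3_mono (hW true) (le_max_right _ _)
  have hiw : ∀ b, i b < w0 := by
    intro b
    by_contra hc
    push Not at hc
    have := hi b
    rw [(hw0 b).1 _ hc] at this
    simp only [ev] at this
    cases b <;> simp at this
  let w := 2 * w0 + 2
  let T : (ℕ → Bool) → Bool → Finset ℕ := fun v b =>
    (Finset.range w).filter fun x => x ≠ 0 ∧ v x = b
  have hT : ∀ v b x, x ∈ T v b ↔ x < w ∧ x ≠ 0 ∧ v x = b := by
    intro v b x
    simp [T]
  refine ⟨w, 0, by omega, ?_⟩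
  have main : ∀ c : ℕ, ∀ v : ℕ → Bool, (T v (!(v 0))).card ≤ c →
      ∃ u, Reach H w v u ∧ u 0 ≠ v 0 := by
    intro c
    induction c using Nat.strong_induction_on with
    | _ c ih =>
      intro v hc
      rcases Nat.lt_or_ge (T v (!(v 0))).card w0 with hlt | hge
      · -- one step
        have hcard : w0 ≤ (T v (v 0)).card := by
          have hun : (Finset.range w).erase 0 ⊆ T v (v 0) ∪ T v (!(v 0)) := by
            intro x hx
            rw [Finset.mem_erase, Finset.mem_range] at hx
            rw [Finset.mem_union, hT, hT]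
            rcases Bool.eq_or_eq_not (v x) (v 0) with h | h
            · exact Or.inl ⟨hx.2, hx.1, h⟩
            · exact Or.inr ⟨hx.2, hx.1, h⟩
          have h2 := Finset.card_le_card hun
          have h3 := Finset.card_union_le (T v (v 0)) (T v (!(v 0)))
          have h4 : ((Finset.range w).erase 0).card = w - 1 := by
            rw [Finset.card_erase_of_mem (by rw [Finset.mem_range]; omega), Finset.card_range]
          omega
        obtain ⟨e, he, heS⟩ := t3_inj w0 _ hcard
        set b := v 0 with hbdef
        let g : Fin w0 → ℕ := fun k => if (k : ℕ) = i b then 0 else e k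
        have hg : Function.Injective g := by
          intro x y hxy
          simp only [g] at hxy
          split_ifs at hxy with hx hy hy
          · exact Fin.ext (hx.trans hy.symm)
          · exact (((hT _ _ _).1 (heS y)).2.1 hxy.symm).elim
          · exact (((hT _ _ _).1 (heS x)).2.1 hxy).elim
          · exact he hxy
        obtain ⟨ρ, hρ⟩ := t3_perm w0 g hg
        have hρv : ∀ k, k < w0 → ρ k < w ∧ v (ρ k) = b := by
          intro k hk
          have := hρ ⟨k, hk⟩
          simp only at this
          rw [this]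
          simp only [g]
          split_ifs with hx
          · exact ⟨by omega, hbdef.symm⟩
          · have h5 := (hT _ _ _).1 (heS ⟨k, hk⟩)
            exact ⟨h5.1, h5.2.2⟩
        have hρ0 : ρ (i b) = 0 := by
          have := hρ ⟨i b, hiw b⟩
          simp only at this
          rw [this]
          simp [g]
        refine ⟨fun n => ev v (place (θ b) ρ n),
          Reach.step (hθ b) (t3_place (hw0 b) ρ fun n hn => (hρv n hn).1) (Reach.refl _), ?_⟩
        show ev v (place (θ b) ρ 0) ≠ b
        rw [t3_ev_place]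
        have h6 : ρ.symm 0 = i b := by rw [← hρ0, Equiv.symm_apply_apply]
        rw [h6]
        have h7 : ev (fun m => v (ρ m)) (θ b (i b)) = ev (fun _ => b) (θ b (i b)) :=
          t3_ev_congr fun n hn => (hρv n ((hw0 b).2 _ (hiw b) n hn)).2
        rw [h7, hi b]
        cases b <;> simp
      · -- the count decreases
        obtain ⟨e, he, heS⟩ := t3_inj w0 _ hge
        obtain ⟨ρ, hρ⟩ := t3_perm w0 e he
        set b := v 0 with hbdef
        have hρv : ∀ k, k < w0 → ρ k < w ∧ ρ k ≠ 0 ∧ v (ρ k) = !b := by
          intro k hk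
          have := hρ ⟨k, hk⟩
          simp only at this
          rw [this]
          exact (hT _ _ _).1 (heS ⟨k, hk⟩)
        let v' : ℕ → Bool := fun n => ev v (place (θ (!b)) ρ n)
        have hfix : ∀ n, w0 ≤ ρ.symm n → v' n = v n := by
          intro n hn
          show ev v (place (θ (!b)) ρ n) = v n
          rw [t3_place_var (hw0 _) ρ hn]
          rfl
        have hv0 : v' 0 = b := by
          apply hfix
          by_contra hcc
          push Not at hcc
          have := (hρv _ hcc).2.1
          rw [Equiv.apply_symm_apply] at this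
          exact this rfl
        have hsub : T v' (!b) ⊆ T v (!b) := by
          intro x hx
          rw [hT] at hx ⊢
          refine ⟨hx.1, hx.2.1, ?_⟩
          rcases Nat.lt_or_ge (ρ.symm x) w0 with hcc | hcc
          · have := (hρv _ hcc).2.2
            rw [Equiv.apply_symm_apply] at this
            exact this
          · rw [← hfix x hcc]; exact hx.2.2
        have hx1 : ρ (i (!b)) ∈ T v (!b) := (hT _ _ _).2 (hρv _ (hiw _))
        have hx2 : ρ (i (!b)) ∉ T v' (!b) := by
          rw [hT]
          rintro ⟨-, -, h8⟩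
          have h9 : v' (ρ (i (!b))) = ev (fun _ => !b) (θ (!b) (i (!b))) := by
            show ev v (place (θ (!b)) ρ _) = _
            rw [t3_ev_place, Equiv.symm_apply_apply]
            exact t3_ev_congr fun n hn => (hρv n ((hw0 _).2 _ (hiw _) n hn)).2.2
          rw [h9, hi] at h8
          cases b <;> simp at h8
        have hlt2 : (T v' (!b)).card < (T v (!b)).card :=
          Finset.card_lt_card ⟨hsub, fun hh => hx2 (hh hx1)⟩
        obtain ⟨u, hu1, hu2⟩ := ih (T v' (!b)).card (lt_of_lt_of_le hlt2 hc) v'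
          (by rw [hv0])
        refine ⟨u, Reach.step (hθ (!b)) (t3_place (hw0 _) ρ fun n hn => (hρv n hn).1) hu1, ?_⟩
        rw [hv0] at hu2
        exact hu2
  intro v
  exact main _ v le_rfl

end Pool.Agent.H586T
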