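import Pool.Agent.H586T.Step

/-!
# Local substitution rules: removing provable hypotheses
-/

set_option autoImplicit false

namespace Pool.Agent.H586T

open Pool.Agent.H586S Pool.Agent.H555R2.PF Pool.Agent.H555R2.PF.Fm Pool.Agent.H586P Filter

theorem imps_elim {F : List Rule} (hF : IsFrege F) : ∃ c : ℕ, ∀ (M : ℕ), 1 ≤ M →
    ∀ (l : List Fm) (A : Fm),
    (∀ X ∈ l, ∃ Y : Fm, Y.size ≤ M ∧ (X = imp Y Y ∨ X = neg (neg (imp Y Y)))) →
    (imps l A).size ≤ M → FO.Can F {imps l A} [A] (c * M * l.length) := by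
  obtain ⟨c₁, h₁⟩ := FO.schemaL hF [] (imp (var 0) (var 0)) (by intro v _; simp [eval])
  obtain ⟨c₂, h₂⟩ := FO.schemaL hF [] (neg (neg (imp (var 0) (var 0)))) (by
    intro v _; simp [eval])
  obtain ⟨c₃, h₃⟩ := FO.schemaL hF [imp (var 0) (var 1), var 0] (var 1) (by
    intro v h; simp [eval] at h ⊢; tauto)
  refine ⟨c₁ + c₂ + c₃, fun M hM l => ?_⟩
  induction l with
  | nil =>
    intro A _ _
    exact (FO.Can.hyp (Set.mem_singleton A)).mono subset_rfl (Nat.zero_le _)
  | cons X l ih =>
    intro A hl hs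
    have e1 : imps (X :: l) A = imp X (imps l A) := rfl
    rw [e1] at hs ⊢
    simp only [size] at hs
    have r := ih A (fun Y hY => hl Y (by simp [hY])) (by omega)
    have p : FO.Can F ({imp X (imps l A)} : Set Fm) [X] ((c₁ + c₂) * M) := by
      obtain ⟨Y, hY, hX⟩ := hl X (by simp)
      rcases hX with rfl | rfl
      · refine ((h₁ [Y] M hM (by
          intro Z hZ; simp at hZ; subst hZ; exact hY) _ (by simp)).sub ?_).mono subset_rfl ?_
        · intro B hB; simpa [subst, asg] using hB
        · nlinarith [Nat.zero_le (c₂ * M)]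
      · refine ((h₂ [Y] M hM (by
          intro Z hZ; simp at hZ; subst hZ; exact hY) _ (by simp)).sub ?_).mono subset_rfl ?_
        · intro B hB; simpa [subst, asg] using hB
        · nlinarith [Nat.zero_le (c₁ * M)]
    have s := h₃ [X, imps l A] M hM (by
      intro Z hZ; simp at hZ; rcases hZ with rfl | rfl <;> omega)
      ({imp X (imps l A)} ∪ {B | B ∈ [X]}) (by
      intro Z hZ; simp only [List.mem_cons, List.not_mem_nil, or_false] at hZ
      rcases hZ with rfl | rfl
      · left; simp [subst, asg]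
      · right; simp [subst, asg])
    have t : FO.Can F ({imp X (imps l A)} : Set Fm) [imps l A] ((c₁ + c₂) * M + c₃ * M) := by
      refine (p.cut s).sub ?_
      intro B hB; simpa [subst, asg] using hB
    refine (t.cut (r.mono (by intro Z hZ; right; simpa using hZ) le_rfl)).mono subset_rfl ?_
    rw [List.length_cons]
    nlinarith

theorem t4 {F : List Rule} (hF : IsFrege F) : S_T4 F := by
  obtain ⟨c, hc⟩ := imps_elim hF
  refine ⟨c + 1, fun l A m M hl => ?_⟩
  rintro ⟨L, hL, hm⟩
  have hs : (imps l A).size ≤ m := by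
    rw [psize_cons] at hm; omega
  have hs' := hs
  rw [imps_size] at hs'
  have hA := size_pos A
  obtain ⟨D, d1, d2, d3⟩ := hc (m + M) (by omega) l A (fun X hX => by
    obtain ⟨Y, h1, h2⟩ := hl X hX
    exact ⟨Y, by omega, h2⟩) (by omega) _ hL (by
    intro X hX; rw [Set.mem_singleton_iff] at hX; subst hX; simp)
  obtain ⟨L', e1, e2⟩ := fproof_cut d1 (d2 A (by simp))
  refine ⟨L', e1, e2.trans ?_⟩
  rw [psize_append]
  have hlen : l.length ≤ m + M := by omega
  calc psize D + psize (imps l A :: L) ≤ c * (m + M) * (m + M) + (m + M) * (m + M) := by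
        apply Nat.add_le_add
        · exact d3.trans (Nat.mul_le_mul_left _ hlen)
        · calc psize (imps l A :: L) ≤ (m + M) * 1 := by omega
            _ ≤ _ := Nat.mul_le_mul_left _ (by omega)
    _ = (c + 1) * (m + M) ^ 2 := by ring

end Pool.Agent.H586T
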