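import Pool.Agent.H586T.Defs

/-!
# Local substitution rules: one step
-/

set_option autoImplicit false

namespace Pool.Agent.H586T

open Pool.Agent.H586S Pool.Agent.H555R2.PF Pool.Agent.H555R2.PF.Fm Pool.Agent.H586P Filter
open Pool.Agent.H543R3.PP

theorem sSys (F : List Rule) (H : Set (ℕ → Fm)) (r : Prop) : Sys F Set.univ (SProof F H r) :=
  ⟨trivial, SProof.nil, fun _ _ h1 h2 _ => SProof.rule h1 h2⟩

theorem ok_univ (A : Fm) : Ok Set.univ A := fun _ _ => trivial

theorem imps_size (l : List Fm) (Z : Fm) : (imps l Z).size = psize l + l.length + Z.size := by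
  induction l with
  | nil => simp [imps, psize]
  | cons X l ih =>
    have : imps (X :: l) Z = imp X (imps l Z) := rfl
    rw [this]
    simp only [size, ih, psize_cons, List.length_cons]; omega

theorem imps_subst (l : List Fm) (Z : Fm) (σ : ℕ → Fm) :
    (imps l Z).subst σ = imps (l.map fun X => X.subst σ) (Z.subst σ) := by
  induction l with
  | nil => rfl
  | cons X l ih =>
    have h1 : imps (X :: l) Z = imp X (imps l Z) := rfl
    rw [h1]
    simp only [subst, ih, List.map_cons]
    rfl

theorem imps_eval (l : List Fm) (Z : Fm) (v : ℕ → Prop) :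
    (imps l Z).eval v ↔ ((∀ X ∈ l, X.eval v) → Z.eval v) := by
  induction l with
  | nil => simp [imps]
  | cons X l ih =>
    have h1 : imps (X :: l) Z = imp X (imps l Z) := rfl
    rw [h1]
    simp only [eval, ih, List.mem_cons, forall_eq_or_imp]
    tauto

theorem imps_append (l l' : List Fm) (Z : Fm) : imps (l ++ l') Z = imps l (imps l' Z) := by
  simp [imps, List.foldr_append]

/-- the literals of the formulas `f 0, …, f (w-1)` describing `v` -/
def lits (v : ℕ → Bool) (f : ℕ → Fm) (w : ℕ) : List Fm :=
  (List.range w).map fun n => if v n = true then f n else neg (f n)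

theorem lits_length (v : ℕ → Bool) (f : ℕ → Fm) (w : ℕ) : (lits v f w).length = w := by
  simp [lits]

theorem mem_lits {v : ℕ → Bool} {f : ℕ → Fm} {w : ℕ} {X : Fm} :
    X ∈ lits v f w ↔ ∃ n < w, X = if v n = true then f n else neg (f n) := by
  simp only [lits, List.mem_map, List.mem_range]
  constructor
  · rintro ⟨n, h1, h2⟩; exact ⟨n, h1, h2.symm⟩
  · rintro ⟨n, h1, h2⟩; exact ⟨n, h1, h2.symm⟩

theorem lits_subst (v : ℕ → Bool) (f g : ℕ → Fm) (w : ℕ) (σ : ℕ → Fm)
    (h : ∀ n < w, (f n).subst σ = g n) :
    (lits v f w).map (fun X => X.subst σ) = lits v g w := by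
  simp only [lits, List.map_map]
  apply List.map_congr_left
  intro n hn
  rw [List.mem_range] at hn
  simp only [Function.comp]
  split_ifs
  · exact h n hn
  · simp only [subst, h n hn]

theorem lits_eval {v : ℕ → Bool} {f : ℕ → Fm} {w : ℕ} {u : ℕ → Prop} :
    (∀ X ∈ lits v f w, X.eval u) ↔ ∀ n < w, ((f n).eval u ↔ v n = true) := by
  constructor
  · intro h n hn
    have := h _ (mem_lits.2 ⟨n, hn, rfl⟩)
    split_ifs at this with h1
    · simp [h1, this]
    · simp only [eval] at this
      simp [h1, this]
  · intro h X hX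
    obtain ⟨n, hn, rfl⟩ := mem_lits.1 hX
    have := h n hn
    split_ifs with h1
    · simpa [h1] using this
    · simp only [eval]; simpa [h1] using this

theorem ev_eval (v : ℕ → Bool) (C : Fm) : ev v C = true ↔ C.eval (fun n => v n = true) := by
  induction C with
  | var n => simp [ev, eval]
  | neg A ih =>
    simp only [ev, eval, ← ih]
    cases ev v A <;> simp
  | and A B iA iB =>
    simp only [ev, eval, ← iA, ← iB]
    cases ev v A <;> cases ev v B <;> simp
  | or A B iA iB =>
    simp only [ev, eval, ← iA, ← iB]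
    cases ev v A <;> cases ev v B <;> simp
  | imp A B iA iB =>
    simp only [ev, eval, ← iA, ← iB]
    cases ev v A <;> cases ev v B <;> simp

theorem place_place (θ : ℕ → Fm) (ρ π : Equiv.Perm ℕ) :
    place (place θ ρ) π = place θ (ρ.trans π) := by
  funext n
  simp only [place, subst_subst, subst, Equiv.symm_trans_apply, Equiv.trans_apply]

theorem vars_subst_var {A : Fm} {f : ℕ → ℕ} {m : ℕ} (h : m ∈ A.vars) :
    f m ∈ (A.subst fun x => var (f x)).vars := by
  induction A with
  | var n =>
    simp only [vars, Finset.mem_singleton] at h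
    subst h; simp [subst, vars]
  | neg A ih => exact ih h
  | and A B iA iB =>
    simp only [subst, vars, Finset.mem_union] at h ⊢
    exact h.imp iA iB
  | or A B iA iB =>
    simp only [subst, vars, Finset.mem_union] at h ⊢
    exact h.imp iA iB
  | imp A B iA iB =>
    simp only [subst, vars, Finset.mem_union] at h ⊢
    exact h.imp iA iB

theorem place_apply (θ : ℕ → Fm) (π : Equiv.Perm ℕ) (n : ℕ) :
    place θ π (π n) = (θ n).subst fun m => var (π m) := by
  simp only [place, Equiv.symm_apply_apply]

/-- a block substitution does not change formulas without the variables of the block -/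
theorem subst_place {θ : ℕ → Fm} {w : ℕ} (h : InB w θ) {π : Equiv.Perm ℕ} {Z : Fm}
    (hZ : ∀ n < w, π n ∉ Z.vars) : Z.subst (place θ π) = Z := by
  conv_rhs => rw [← subst_var Z]
  apply subst_congr
  intro x hx
  obtain ⟨n, rfl⟩ := π.surjective x
  rw [place_apply]
  have hn : w ≤ n := by
    by_contra hlt
    exact hZ n (by omega) hx
  rw [h.1 n hn]
  rfl

theorem vars_imps {l : List Fm} {Z : Fm} {n : ℕ} (h : n ∈ (imps l Z).vars) :
    (∃ X ∈ l, n ∈ X.vars) ∨ n ∈ Z.vars := by
  induction l with
  | nil => exact Or.inr h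
  | cons X l ih =>
    have h1 : imps (X :: l) Z = imp X (imps l Z) := rfl
    rw [h1] at h
    simp only [vars, Finset.mem_union] at h
    rcases h with h | h
    · exact Or.inl ⟨X, by simp, h⟩
    · rcases ih h with ⟨Y, hY, h⟩ | h
      · exact Or.inl ⟨Y, by simp [hY], h⟩
      · exact Or.inr h

theorem imps_vars_left {l : List Fm} {Z X : Fm} {n : ℕ} (hX : X ∈ l) (h : n ∈ X.vars) :
    n ∈ (imps l Z).vars := by
  induction l with
  | nil => simp at hX
  | cons Y l ih =>
    have h1 : imps (Y :: l) Z = imp Y (imps l Z) := rfl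
    rw [h1]
    simp only [vars, Finset.mem_union]
    rcases List.mem_cons.1 hX with rfl | hX
    · exact Or.inl h
    · exact Or.inr (ih hX)

/-- the variables of the rule occur in the line -/
theorem inside {θ : ℕ → Fm} {ρ π : Equiv.Perm ℕ} {w : ℕ} (hB : InB w (place θ ρ))
    (v : ℕ → Bool) (Z : Fm) :
    Inside θ (ρ.trans π) (imps (lits v (fun n => var (π n)) w) Z) := by
  have hin : ∀ n < w, π n ∈ (imps (lits v (fun n => var (π n)) w) Z).vars := by
    intro n hn
    apply imps_vars_left (mem_lits.2 ⟨n, hn, rfl⟩)
    split_ifs <;> simp [vars]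
  intro n hn
  have h1 : ρ n < w := by
    by_contra hlt
    have h2 := hB.1 (ρ n) (by omega)
    rw [place_apply] at h2
    apply hn
    cases hθ : θ n with
    | var m =>
      rw [hθ] at h2
      simp only [subst] at h2
      have h3 : ρ m = ρ n := by injection h2
      rw [ρ.injective h3]
    | neg A => rw [hθ] at h2; simp [subst] at h2
    | and A B => rw [hθ] at h2; simp [subst] at h2
    | or A B => rw [hθ] at h2; simp [subst] at h2
    | imp A B => rw [hθ] at h2; simp [subst] at h2
  refine ⟨hin _ h1, fun m hm => hin _ ?_⟩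
  apply hB.2 (ρ n) h1 (ρ m)
  rw [place_apply]
  exact vars_subst_var hm

/-- **Lemma A.** -/
theorem reach_gen {F : List Rule} (hF : IsFrege F) {H : Set (ℕ → Fm)} {w : ℕ}
    {v u : ℕ → Bool} (h : Reach H w v u) (r₀ : Prop) :
    ∃ c : ℕ, ∀ (π : Equiv.Perm ℕ) (Z : Fm) (M : ℕ),
    Z.size ≤ M → (∀ n < w, π n ∉ Z.vars) →
    Gen (SProof F H r₀) {imps (lits u (fun n => var (π n)) w) Z}
      [imps (lits v (fun n => var (π n)) w) Z] (c * M) := by
  induction h with
  | refl v =>
    exact ⟨0, fun π Z M _ _ => (Gen.hyp (Set.mem_singleton _)).le (Nat.zero_le _)⟩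
  | @step v u θ ρ hθ hB _ ih =>
    obtain ⟨c, hc⟩ := ih
    set θ' := place θ ρ with hθ'
    set v' : ℕ → Bool := fun n => ev v (θ' n) with hv'
    obtain ⟨d, hd⟩ := gschema hF [imps (lits v' θ' w) (var w)] (imps (lits v var w) (var w)) (by
      intro e he
      have h1 := he _ (List.mem_singleton_self _)
      rw [imps_eval, lits_eval] at h1 ⊢
      intro h2
      apply h1
      intro n hn
      have h3 : (θ' n).eval e ↔ (θ' n).eval (fun m => v m = true) := by
        apply eval_congr
        intro m hm
        have := h2 m (hB.2 n hn m hm)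
        simpa [eval] using this
      rw [h3, ← ev_eval])
    refine ⟨c + (psize (lits v' θ' w) + w + 1) + d, fun π Z M hZ hπ => ?_⟩
    have hM1 : 1 ≤ M := (size_pos Z).trans hZ
    have r := hc π Z M hZ hπ
    -- the line obtained by the rule
    set Y := imps (lits v' (fun n => (θ' n).subst fun m => var (π m)) w) Z with hY
    have hYs : (imps (lits v' (fun n => var (π n)) w) Z).subst (place θ' π) = Y := by
      rw [imps_subst, subst_place hB hπ,
        lits_subst v' _ (fun n => (θ' n).subst fun m => var (π m)) w _ (fun n _ => by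
          simp only [subst]; exact place_apply θ' π n)]
    have hYsize : Y.size ≤ (psize (lits v' θ' w) + w + 1) * M := by
      have h1 : lits v' (fun n => (θ' n).subst fun m => var (π m)) w =
          (lits v' θ' w).map (fun X => X.subst fun m => var (π m)) :=
        (lits_subst v' θ' _ w _ (fun n _ => rfl)).symm
      have h2 : psize (lits v' (fun n => (θ' n).subst fun m => var (π m)) w) =
          psize (lits v' θ' w) := by
        rw [h1]; exact psize_subst_var π _
      rw [hY, imps_size, h2, lits_length]
      nlinarith [Nat.mul_le_mul_left (psize (lits v' θ' w) + w) hM1]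
    have st : Gen (SProof F H r₀) {imps (lits v' (fun n => var (π n)) w) Z} [Y]
        ((psize (lits v' θ' w) + w + 1) * M) := by
      intro L hL hΓ
      have hmem := hΓ _ (Set.mem_singleton _)
      have := SProof.sub (π := ρ.trans π) hL hθ hmem (fun _ => inside hB v' Z)
      rw [← place_place, ← hθ', hYs] at this
      refine ⟨[Y], this, by simp, ?_⟩
      simpa [psize] using hYsize
    have fin := hd Set.univ (SProof F H r₀) (sSys F H r₀) (fun n => if n < w then var (π n) else Z) M
      hM1 (by intro n; split_ifs
              · simpa [size] using hM1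
              · exact hZ) (fun n => ok_univ _) ({imps (lits v' (fun n => var (π n)) w) Z} ∪
        {B | B ∈ [Y]}) (by
      intro X hX
      rw [List.mem_singleton] at hX
      subst hX
      right
      simp only [List.mem_singleton]
      change _ = Y
      rw [imps_subst, lits_subst v' _ (fun n => (θ' n).subst fun m => var (π m)) w _ (fun n hn => by
        apply subst_congr
        intro m hm
        rw [if_pos (hB.2 n hn m hm)])]
      simp [subst, hY])
    have hfin : (imps (lits v var w) (var w)).subst (fun n => if n < w then var (π n) else Z) =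
        imps (lits v (fun n => var (π n)) w) Z := by
      rw [imps_subst, lits_subst v _ (fun n => var (π n)) w _ (fun n hn => by
        simp only [subst]; rw [if_pos hn])]
      simp [subst]
    rw [hfin] at fin
    have comb := (st.cut fin).mono (Γ' := {imps (lits u (fun n => var (π n)) w) Z} ∪
      {B | B ∈ [imps (lits v' (fun n => var (π n)) w) Z]})
      (by intro X hX; right; simpa using hX) le_rfl
    refine (r.cut comb).le ?_
    ring_nf
    exact le_rfl

/-- **Lemma B.** -/
theorem bstep {F : List Rule} (hF : IsFrege F) {H : Set (ℕ → Fm)} {w n₀ : ℕ} (hn : n₀ < w)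
    {v u : ℕ → Bool} (h : Reach H w v u) (hne : u n₀ ≠ v n₀) (r₀ : Prop) : ∃ c : ℕ,
    ∀ (π : Equiv.Perm ℕ) (φ E A : Fm) (M : ℕ), φ.size ≤ M → E.size ≤ M → A.size ≤ M →
    (∀ n < w, π n ∉ φ.vars ∧ π n ∉ E.vars ∧ π n ∉ A.vars) →
    Gen (SProof F H r₀) {imp (and (iff (var (π n₀)) φ) E) A}
      [imp E (imps (lits v (fun n => var (π n)) w) A)] (c * M) := by
  obtain ⟨c, hc⟩ := reach_gen hF h r₀
  set Q := imp (and (iff (var n₀) (var w)) (var (w + 1))) (var (w + 2)) with hQ
  set R := imp (if u n₀ = true then var w else neg (var w)) (imp (var (w + 1)) (var (w + 2)))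
    with hR
  obtain ⟨d, hd⟩ := gschema hF [Q] (imps (lits u var w) R) (by
    intro e he
    have h1 := he _ (List.mem_singleton_self _)
    rw [imps_eval, lits_eval]
    intro h2
    have h3 := h2 n₀ hn
    simp only [hQ, eval, iff] at h1
    simp only [eval] at h3
    rw [hR]
    cases hu : u n₀ <;> simp only [hu, eval] at h3 ⊢ <;> simp at h3 ⊢ <;> tauto)
  obtain ⟨d', hd'⟩ := gschema hF [imps (lits v var w) R, Q]
    (imp (var (w + 1)) (imps (lits v var w) (var (w + 2)))) (by
    intro e he
    have h1 := he _ (List.mem_cons_self ..)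
    have h2 := he Q (by simp)
    rw [imps_eval, lits_eval] at h1
    simp only [eval]
    intro h5
    rw [imps_eval, lits_eval]
    intro h3
    have h4 := h1 h3
    have h6 := h3 n₀ hn
    simp only [hQ, eval, iff] at h2
    simp only [eval] at h6 ⊢
    rw [hR] at h4
    cases hu : u n₀ <;> cases hv : v n₀ <;> simp only [hu, hv, eval] at h4 h6 hne <;>
      simp at h4 h6 hne <;> tauto)
  refine ⟨d + c * 6 + d', fun π φ E A M hφ hE hA hπ => ?_⟩
  have hM1 : 1 ≤ M := (size_pos A).trans hA
  set σ : ℕ → Fm := fun n => if n < w then var (π n) else if n = w then φ else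
    if n = w + 1 then E else A with hσ
  have hσM : ∀ n, (σ n).size ≤ M := by
    intro n; simp only [hσ]; split_ifs
    · simpa [size] using hM1
    · exact hφ
    · exact hE
    · exact hA
  have s0 : ∀ n < w, σ n = var (π n) := fun n hn => by simp only [hσ]; rw [if_pos hn]
  have s1 : σ w = φ := by simp [hσ]
  have s2 : σ (w + 1) = E := by simp [hσ]
  have s3 : σ (w + 2) = A := by simp [hσ]
  have hQs : Q.subst σ = imp (and (iff (var (π n₀)) φ) E) A := by
    simp only [hQ, subst, iff, s0 n₀ hn, s1, s2, s3]
  set Z := imp (if u n₀ = true then φ else neg φ) (imp E A) with hZ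
  have hRs : R.subst σ = Z := by
    simp only [hR, hZ]
    split_ifs <;> simp only [subst, s1, s2, s3]
  have hls : ∀ t : ℕ → Bool, (lits t var w).map (fun X => X.subst σ) =
      lits t (fun n => var (π n)) w := fun t => lits_subst t _ _ w _ (fun n hn => by
    simp only [subst]; exact s0 n hn)
  have hZM : Z.size ≤ 6 * M := by
    simp only [hZ]
    split_ifs <;> simp only [size] <;> omega
  have hZv : ∀ n < w, π n ∉ Z.vars := by
    intro n hn h
    obtain ⟨p1, p2, p3⟩ := hπ n hn
    simp only [hZ] at h
    split_ifs at h <;> simp only [vars, Finset.mem_union] at h <;> tauto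
  have r1 := hd Set.univ (SProof F H r₀) (sSys F H r₀) σ M hM1 hσM (fun n => ok_univ _)
    {imp (and (iff (var (π n₀)) φ) E) A} (by
      intro X hX; rw [List.mem_singleton] at hX; subst hX; rw [hQs]; rfl)
  rw [imps_subst, hls, hRs] at r1
  have r2 := hc π Z (6 * M) hZM hZv
  have r3 := hd' Set.univ (SProof F H r₀) (sSys F H r₀) σ M hM1 hσM (fun n => ok_univ _)
    ({imp (and (iff (var (π n₀)) φ) E) A} ∪
      {B | B ∈ [imps (lits u (fun n => var (π n)) w) Z]} ∪
      {B | B ∈ [imps (lits v (fun n => var (π n)) w) Z]}) (by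
      intro X hX
      simp only [List.mem_cons, List.not_mem_nil, or_false] at hX
      rcases hX with rfl | rfl
      · right
        rw [imps_subst, hls, hRs]; simp
      · left; left; rw [hQs]; rfl)
  simp only [subst] at r3
  rw [imps_subst, hls, s2] at r3
  simp only [subst, s3] at r3
  have r23 := (r2.mono (Γ' := {imp (and (iff (var (π n₀)) φ) E) A} ∪
      {B | B ∈ [imps (lits u (fun n => var (π n)) w) Z]}) (by
      intro X hX; right; simpa using hX) le_rfl).cut r3
  refine (r1.cut r23).le ?_
  ring_nf
  exact le_rfl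

end Pool.Agent.H586T
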