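import Pool.Agent.H586T.Loop

/-!
# Local substitution rules: main theorem
-/

set_option autoImplicit false

namespace Pool.Agent.H586T

open Pool.Agent.H586S Pool.Agent.H555R2.PF Pool.Agent.H555R2.PF.Fm Pool.Agent.H586P Filter
open Pool.Agent.H543R3.PP Pool.Agent.H586P.T_dline

/-- formulas with short `P`-proofs whose Frege proofs give Frege proofs of `A` -/
def Key (F : List Rule) (P : Fm → ℕ → Prop) : Prop := ∃ c : ℕ, ∀ (A : Fm) (s : ℕ),
  EFSize F A s → ∃ B : Fm, A.size ≤ B.size ∧ B.size ≤ c * s ^ 5 ∧ P B (c * s ^ 5) ∧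
    ∀ m, FSize F B m → FSize F A (c * m ^ 2)

theorem polySim_gen {F : List Rule} {P : Fm → ℕ → Prop} (hk : Key F P)
    (h : PolySim P (FSize F)) : PolySim (EFSize F) (FSize F) := by
  obtain ⟨c, hc⟩ := hk
  obtain ⟨d, hd⟩ := h
  refine ⟨c * (d * (c + 1) ^ d) ^ 2 + 5 * d * 2, fun A m hm => ?_⟩
  obtain ⟨B, -, -, b3, b4⟩ := hc A m hm
  obtain ⟨L, e1, e2⟩ := b4 _ (hd B _ b3)
  refine ⟨L, e1, e2.trans ?_⟩
  have hm1 : 1 ≤ m := by
    obtain ⟨k, L, -, hs⟩ := hm
    rw [psize_cons] at hs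
    have := size_pos A
    omega
  calc c * (d * (c * m ^ 5) ^ d) ^ 2 = c * (d * c ^ d) ^ 2 * m ^ (5 * d * 2) := by
        rw [_root_.mul_pow c, ← pow_mul, ← mul_assoc, _root_.mul_pow (d * c ^ d), ← pow_mul, ← mul_assoc]
    _ ≤ (c * (d * (c + 1) ^ d) ^ 2 + 5 * d * 2) *
        m ^ (c * (d * (c + 1) ^ d) ^ 2 + 5 * d * 2) := by
        apply Nat.mul_le_mul
        · refine le_trans ?_ (Nat.le_add_right _ _)
          apply Nat.mul_le_mul_left
          apply Nat.pow_le_pow_left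
          apply Nat.mul_le_mul_left
          exact Nat.pow_le_pow_left (by omega) _
        · exact Nat.pow_le_pow_right hm1 (by omega)

theorem expSep_gen {F : List Rule} {P : Fm → ℕ → Prop} (hk : Key F P)
    (hmono : ∀ A m m', P A m → m ≤ m' → P A m')
    (h : ExpSep (EFSize F) (FSize F)) : ExpSep P (FSize F) := by
  obtain ⟨c, hc⟩ := hk
  obtain ⟨ε, d, τ, hε, hτ, hs⟩ := h
  have hs1 : ∀ n, EFSize F (τ n) (d * (τ n).size ^ d) := fun n => (hs n).1
  choose B b1 b2 b3 b4 using fun n => hc (τ n) _ (hs1 n)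
  -- bound of the size of B n
  set C : ℕ := c * (d ^ 5) + 5 * d with hC
  have hBC : ∀ n, c * (d * (τ n).size ^ d) ^ 5 ≤ C * (τ n).size ^ C := by
    intro n
    have h1 := size_pos (τ n)
    calc c * (d * (τ n).size ^ d) ^ 5 = (c * d ^ 5) * (τ n).size ^ (d * 5) := by
          rw [_root_.mul_pow, ← pow_mul, mul_assoc]
      _ ≤ C * (τ n).size ^ C := Nat.mul_le_mul (by omega) (Nat.pow_le_pow_right h1 (by
          rw [hC]; omega))
  -- the exponent
  set K : ℝ := C + 1 with hK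
  have hK1 : (1 : ℝ) ≤ K := by rw [hK]; have : (0 : ℝ) ≤ C := Nat.cast_nonneg _; linarith
  have hK0 : 0 < K := by linarith
  set δ : ℝ := ε / (2 * K) with hδ
  have hδ0 : 0 < δ := by positivity
  have hδK : δ * K = ε / 2 := by rw [hδ]; field_simp
  -- eventually large
  have hlim : Tendsto (fun n => ((τ n).size : ℝ) ^ (ε / 2)) atTop atTop := by
    have h1 : Tendsto (fun n => ((τ n).size : ℝ)) atTop atTop :=
      tendsto_natCast_atTop_atTop.comp hτ
    exact (tendsto_rpow_atTop (by positivity : 0 < ε / 2)).comp h1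
  set LC : ℝ := Real.logb 2 (c + 1) with hLC
  have hLC0 : 0 ≤ LC := Real.logb_nonneg (by norm_num) (by
    have : (0 : ℝ) ≤ c := Nat.cast_nonneg _
    linarith)
  obtain ⟨n₀, hn₀⟩ := (hlim.eventually_ge_atTop (2 * K ^ δ + LC + 1)).exists_forall_of_atTop
  refine ⟨δ, C, fun n => B (n + n₀), hδ0, ?_, fun n => ⟨?_, ?_⟩⟩
  · refine tendsto_atTop_mono (fun n => b1 (n + n₀)) ?_
    exact (tendsto_add_atTop_iff_nat n₀).2 hτ
  · refine hmono _ _ _ (b3 (n + n₀)) ((hBC _).trans ?_)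
    exact Nat.mul_le_mul_left _ (Nat.pow_le_pow_left (b1 _) _)
  · intro m hm
    have h1 := (hs (n + n₀)).2 _ (b4 _ m hm)
    set a : ℝ := ((τ (n + n₀)).size : ℝ) with ha
    have ha1 : (1 : ℝ) ≤ a := by
      rw [ha]; exact_mod_cast size_pos _
    have hx := hn₀ (n + n₀) (by omega)
    rw [← ha] at hx
    set x : ℝ := a ^ (ε / 2) with hxdef
    have hxx : a ^ ε = x * x := by
      rw [hxdef, ← Real.rpow_add (by linarith)]; ring_nf
    -- size of B
    have hB : ((B (n + n₀)).size : ℝ) ≤ K * a ^ K := by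
      have h2 : (B (n + n₀)).size ≤ C * (τ (n + n₀)).size ^ C := (b2 _).trans (hBC _)
      have h3 : ((B (n + n₀)).size : ℝ) ≤ C * a ^ C := by
        rw [ha]; exact_mod_cast h2
      refine h3.trans ?_
      have h4 : a ^ C ≤ a ^ K := by
        rw [← Real.rpow_natCast]
        exact Real.rpow_le_rpow_of_exponent_le ha1 (by rw [hK]; linarith)
      have h5 : (C : ℝ) ≤ K := by rw [hK]; linarith
      exact mul_le_mul h5 h4 (by positivity) (by linarith)
    have hBd : ((B (n + n₀)).size : ℝ) ^ δ ≤ K ^ δ * x := by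
      calc ((B (n + n₀)).size : ℝ) ^ δ ≤ (K * a ^ K) ^ δ :=
            Real.rpow_le_rpow (Nat.cast_nonneg _) hB hδ0.le
        _ = K ^ δ * x := by
            rw [Real.mul_rpow hK0.le (by positivity), ← Real.rpow_mul (by linarith),
              mul_comm K δ, hδK]
    have hx0 : 0 ≤ x := by positivity
    have hKd : 0 ≤ K ^ δ := by positivity
    -- 2 * (K^δ x) + LC ≤ x * x
    have hmain : 2 * (K ^ δ * x) + LC ≤ x * x := by
      have h6 : 1 ≤ x := by linarith
      nlinarith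
    have h7 : (2 : ℝ) ^ (2 * (K ^ δ * x) + LC) ≤ (c + 1) * (m : ℝ) ^ 2 := by
      calc (2 : ℝ) ^ (2 * (K ^ δ * x) + LC) ≤ 2 ^ (a ^ ε) := by
            rw [hxx]
            exact Real.rpow_le_rpow_of_exponent_le (by norm_num) hmain
        _ ≤ (c * m ^ 2 : ℕ) := h1
        _ ≤ (c + 1) * (m : ℝ) ^ 2 := by
            push_cast
            nlinarith [sq_nonneg (m : ℝ)]
    have h8 : (2 : ℝ) ^ LC = c + 1 := by
      rw [hLC]
      exact Real.rpow_logb (by norm_num) (by norm_num) (by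
        have : (0 : ℝ) ≤ c := Nat.cast_nonneg _
        linarith)
    rw [Real.rpow_add (by norm_num), h8, mul_comm] at h7
    have hc1 : (0 : ℝ) < c + 1 := by
      have : (0 : ℝ) ≤ c := Nat.cast_nonneg _
      linarith
    have h9 : (2 : ℝ) ^ (2 * (K ^ δ * x)) ≤ (m : ℝ) ^ 2 := le_of_mul_le_mul_left h7 hc1
    have h10 : ((2 : ℝ) ^ (K ^ δ * x)) ^ 2 ≤ (m : ℝ) ^ 2 := by
      rw [← Real.rpow_natCast ((2 : ℝ) ^ (K ^ δ * x)) 2, ← Real.rpow_mul (by norm_num)]
      refine le_trans (le_of_eq ?_) h9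
      congr 1; push_cast; ring
    have h11 : (2 : ℝ) ^ (K ^ δ * x) ≤ m := by
      exact le_of_sq_le_sq h10 (Nat.cast_nonneg _)
    exact (Real.rpow_le_rpow_of_exponent_le (by norm_num) hBd).trans h11


theorem sproof_cut {F : List Rule} {H : Set (ℕ → Fm)} {r₀ : Prop} {L : List Fm}
    (h : SProof F H r₀ L) {B : Fm} (hB : B ∈ L) : ∃ L', SProof F H r₀ (B :: L') ∧ psize (B :: L') ≤ psize L := by
  induction h with
  | nil => simp at hB
  | @rule L C hL hC ih =>
    rcases List.mem_cons.1 hB with rfl | hB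
    · exact ⟨L, SProof.rule hL hC, le_rfl⟩
    · obtain ⟨L', h1, h2⟩ := ih hB
      exact ⟨L', h1, by rw [psize_cons C]; omega⟩
  | @sub L A θ π hL hθ hA hr ih =>
    rcases List.mem_cons.1 hB with rfl | hB
    · exact ⟨L, SProof.sub hL hθ hA hr, le_rfl⟩
    · obtain ⟨L', h1, h2⟩ := ih hB
      exact ⟨L', h1, by rw [psize_cons (subst (place θ π) A)]; omega⟩

theorem fproof_s {F : List Rule} {H : Set (ℕ → Fm)} {r₀ : Prop} {L : List Fm}
    (h : FO.FProof F L) : SProof F H r₀ L := by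
  induction h with
  | nil => exact SProof.nil
  | rule _ hB ih => exact SProof.rule ih hB

theorem ssize_mono {F : List Rule} {H : Set (ℕ → Fm)} {r₀ : Prop} (A : Fm) (m m' : ℕ)
    (h : SSize F H r₀ A m) (hm : m ≤ m') : SSize F H r₀ A m' := by
  obtain ⟨L, h1, h2⟩ := h
  exact ⟨L, h1, h2.trans hm⟩

/-- the start: the extension axioms imply `A` -/
theorem start {F : List Rule} (hF : IsFrege F) (w n₀ : ℕ) (hn : n₀ < w) : ∃ c : ℕ,
    ∀ (A : Fm) (k : ℕ) (L : List Fm), EFProof F A k (A :: L) →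
    ∃ (z : ℕ) (q : ℕ → ℕ) (φ : ℕ → Fm) (π : ℕ → Equiv.Perm ℕ), Blk w n₀ A k z q φ π ∧
      k ≤ psize (A :: L) ∧ psize (extL q φ k) + A.size + k ≤ 3 * psize (A :: L) ∧
      ∃ D, FO.FProof F D ∧ imp (conjL z (extL q φ k)) A ∈ D ∧
        psize D ≤ c * psize (A :: L) ^ 3 := by
  obtain ⟨c₁, h₁⟩ := FO.t_dline F hF (FO.t_ded F hF)
  refine ⟨c₁, fun A k L hL => ?_⟩
  obtain ⟨q, φ, hG, hmem, hps, hd⟩ := h₁ A k L hL
  obtain ⟨z, hz⟩ := Infinite.exists_notMem_finset ((Finset.range k).image q)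
  have hqz : ∀ i < k, q i ≠ z := by
    intro i hi h
    exact hz (Finset.mem_image.2 ⟨i, Finset.mem_range.2 hi, h⟩)
  obtain ⟨π, hπ⟩ := blk_exists hn hG hqz
  have hk : k ≤ psize (A :: L) := by
    have := length_le_psize (extL q φ k)
    rw [length_extL] at this
    omega
  have hAs : A.size ≤ psize (A :: L) := size_le_psize (by simp)
  have d := hd z var 1 le_rfl rfl (fun n => le_rfl) ∅
  rw [subst_var] at d
  obtain ⟨D, d1, d2, d3⟩ := d [] FO.FProof.nil (by simp)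
  rw [List.append_nil] at d1 d2
  exact ⟨z, q, φ, π, hπ, hk, by omega, D, d1, d2 _ (by simp), by simpa using d3⟩

theorem up1 {F : List Rule} (hF : IsFrege F) {H : Set (ℕ → Fm)} {w n₀ : ℕ} (hn : n₀ < w)
    {v u : ℕ → Bool} (h : Reach H w v u) (hne : u n₀ ≠ v n₀) (r₀ : Prop) : ∃ c : ℕ,
    ∀ (A : Fm) (k : ℕ) (L : List Fm), EFProof F A k (A :: L) →
    ∃ (z : ℕ) (q : ℕ → ℕ) (φ : ℕ → Fm) (π : ℕ → Equiv.Perm ℕ), Blk w n₀ A k z q φ π ∧
      SSize F H r₀ (imps (top z :: blkL v w π 0 k) A) (c * psize (A :: L) ^ 3) := by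
  obtain ⟨c₁, h₁⟩ := start hF w n₀ hn
  obtain ⟨c₂, h₂⟩ := loop1 hF hn h hne r₀
  refine ⟨c₁ + c₂ * (3 * w + 30), fun A k L hL => ?_⟩
  obtain ⟨z, q, φ, π, hπ, hk, hs, D, d1, d2, d3⟩ := h₁ A k L hL
  refine ⟨z, q, φ, π, hπ, ?_⟩
  set s := psize (A :: L) with hsd
  have hs1 : 1 ≤ s := by
    have : A.size ≤ s := size_le_psize (by simp)
    exact (size_pos A).trans this
  have e2 := h₂ A k z q φ π ((3 * w + 30) * s) hπ (by nlinarith [Nat.mul_le_mul_left (3 * w) hk])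
    k le_rfl
  rw [Nat.sub_self] at e2
  obtain ⟨D', f1, f2, f3⟩ := e2 D (fproof_s d1) (by
    intro X hX; simp only [Set.mem_singleton_iff] at hX; subst hX; exact d2)
  obtain ⟨L', g1, g2⟩ := sproof_cut f1 (f2 (imp (conjL z (extL q φ 0)) (imps (blkL v w π 0 k) A))
    (by simp))
  refine ⟨L', g1, g2.trans ?_⟩
  rw [psize_append]
  have t2 : s * s ≤ s ^ 3 := by nlinarith
  have u2 : c₂ * ((3 * w + 30) * s) * k ≤ c₂ * (3 * w + 30) * s ^ 3 := by
    calc c₂ * ((3 * w + 30) * s) * k ≤ c₂ * ((3 * w + 30) * s) * s := Nat.mul_le_mul_left _ hk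
      _ = c₂ * (3 * w + 30) * (s * s) := by ring
      _ ≤ _ := Nat.mul_le_mul_left _ t2
  calc psize D' + psize D ≤ c₂ * (3 * w + 30) * s ^ 3 + c₁ * s ^ 3 := by omega
    _ = _ := by ring

/-- **the rules neither fix 0 nor 1** -/
theorem up3 {F : List Rule} (hF : IsFrege F) {H : Set (ℕ → Fm)} {w n₀ : ℕ} (hn : n₀ < w)
    (hH : ∀ v : ℕ → Bool, ∃ u : ℕ → Bool, Reach H w v u ∧ u n₀ ≠ v n₀) (r₀ : Prop) :
    PolySim (EFSize F) (SSize F H r₀) := by
  obtain ⟨c₁, h₁⟩ := start hF w n₀ hn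
  obtain ⟨c₂, h₂⟩ := loop3 hF hn hH r₀
  obtain ⟨c₃, h₃⟩ := gschemaL hF [imp (imp (var 0) (var 0)) (var 1)] (var 1) (by
    intro v h; simp [eval] at h ⊢; tauto)
  refine ⟨c₁ + (c₂ + c₃) * (3 * w + 30) + 3, fun A m => ?_⟩
  rintro ⟨k, L, hL, hm⟩
  obtain ⟨z, q, φ, π, hπ, hk, hs, D, d1, d2, d3⟩ := h₁ A k L hL
  set s := psize (A :: L) with hsd
  have hA : A.size ≤ s := size_le_psize (by simp)
  have hs1 : 1 ≤ s := (size_pos A).trans hA
  set M := (3 * w + 30) * s with hM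
  have hMs : s ≤ M := by rw [hM]; nlinarith
  have e2 := h₂ A k z q φ π M hπ (by rw [hM]; nlinarith [Nat.mul_le_mul_left (3 * w) hk])
    k le_rfl
  rw [Nat.sub_self] at e2
  have e3 := h₃ Set.univ (SProof F H r₀) (sSys F H r₀) [var z, A] M (by omega) (by
    intro X hX; simp at hX; rcases hX with rfl | rfl
    · simp [size]; omega
    · omega) (fun X _ => ok_univ X)
    ({imp (conjL z (extL q φ k)) A} ∪ {B | B ∈ [imp (conjL z (extL q φ 0)) A]}) (by
    intro X hX; simp only [List.mem_singleton] at hX; subst hX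
    right; simp [subst, asg, extL, conjL])
  obtain ⟨D', f1, f2, f3⟩ := (e2.cut e3) D (fproof_s d1) (by
    intro X hX; simp only [Set.mem_singleton_iff] at hX; subst hX; exact d2)
  obtain ⟨L', g1, g2⟩ := sproof_cut f1 (f2 A (by simp [subst, asg]))
  refine ⟨L', g1, g2.trans ?_⟩
  rw [psize_append]
  have t1 : s ≤ s ^ 3 := by nlinarith [Nat.mul_le_mul hs1 hs1, sq_nonneg s]
  have t2 : s * s ≤ s ^ 3 := by nlinarith
  have u2 : c₂ * M * k ≤ c₂ * (3 * w + 30) * s ^ 3 := by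
    calc c₂ * M * k ≤ c₂ * ((3 * w + 30) * s) * s := Nat.mul_le_mul_left _ hk
      _ = c₂ * (3 * w + 30) * (s * s) := by ring
      _ ≤ _ := Nat.mul_le_mul_left _ t2
  have u3 : c₃ * M ≤ c₃ * (3 * w + 30) * s ^ 3 := by
    calc c₃ * M = c₃ * (3 * w + 30) * s := by rw [hM]; ring
      _ ≤ _ := Nat.mul_le_mul_left _ t1
  calc psize D' + psize D ≤ (c₂ * (3 * w + 30) * s ^ 3 + c₃ * (3 * w + 30) * s ^ 3) +
        c₁ * s ^ 3 := by omega
    _ = (c₁ + (c₂ + c₃) * (3 * w + 30)) * s ^ 3 := by ring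
    _ ≤ _ := by
      apply Nat.mul_le_mul (by omega)
      exact (Nat.pow_le_pow_left hm 3).trans (Nat.pow_le_pow_right (by omega) (by omega))

/-- substituting constants for the variables of the blocks -/
theorem down1 {F : List Rule} (h4 : S_T4 F) (v : ℕ → Bool) (w n₀ : ℕ) : ∃ c : ℕ,
    ∀ (A : Fm) (k z : ℕ) (q : ℕ → ℕ) (φ : ℕ → Fm) (π : ℕ → Equiv.Perm ℕ) (m : ℕ),
    Blk w n₀ A k z q φ π → FSize F (imps (top z :: blkL v w π 0 k) A) m →
    FSize F A (c * m ^ 2) := by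
  classical
  obtain ⟨c, hc⟩ := h4
  refine ⟨64 * c, fun A k z q φ π m hB => ?_⟩
  rintro ⟨L, hL, hm⟩
  set σ : ℕ → Fm := fun x => if ∃ i < k, ∃ n < w, π i n = x ∧ v n = true then top 0 else
    if ∃ i < k, ∃ n < w, π i n = x then neg (top 0) else var x with hσ
  have hσs : ∀ x, (σ x).size ≤ 4 := by
    intro x; simp only [hσ]; split_ifs <;> simp [top, size]
  have hσA : A.subst σ = A := by
    conv_rhs => rw [← subst_var A]
    apply subst_congr
    intro x hx
    have hno : ¬ ∃ i < k, ∃ n < w, π i n = x := by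
      rintro ⟨i, hi, n, hn, rfl⟩
      exact hB.hA i hi n hn hx
    simp only [hσ]
    rw [if_neg, if_neg hno]
    rintro ⟨i, hi, n, hn, h, -⟩
    exact hno ⟨i, hi, n, hn, h⟩
  have g := fproof_subst hL σ
  rw [List.map_cons, imps_subst, hσA] at g
  have hpm : psize (imps ((top z :: blkL v w π 0 k).map fun X => X.subst σ) A ::
      L.map (Fm.subst σ)) ≤ 4 * m := by
    have h3 : ∀ L' : List Fm, psize (L'.map (Fm.subst σ)) ≤ 4 * psize L' := by
      intro L'
      induction L' with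
      | nil => simp [psize]
      | cons X L' ih =>
        rw [List.map_cons, psize_cons, psize_cons]
        have : (X.subst σ).size ≤ X.size * 4 := size_subst_le (by norm_num) (fun n _ => hσs n)
        omega
    have := h3 (imps (top z :: blkL v w π 0 k) A :: L)
    rw [List.map_cons, imps_subst, hσA] at this
    omega
  have r := hc _ A (4 * m) 4 (by
    intro X hX
    obtain ⟨Y, hY, rfl⟩ := List.mem_map.1 hX
    rcases List.mem_cons.1 hY with rfl | hY
    · exact ⟨σ z, hσs z, Or.inl rfl⟩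
    · obtain ⟨i, -, i2, n, hn, rfl⟩ := mem_blkL hY
      have hi : i < k := by omega
      refine ⟨var 0, by simp [size], ?_⟩
      by_cases hv : v n = true
      · left
        rw [if_pos hv]
        simp only [subst, hσ]
        rw [if_pos ⟨i, hi, n, hn, rfl, hv⟩]
        rfl
      · right
        rw [if_neg hv]
        simp only [subst, hσ]
        rw [if_neg, if_pos ⟨i, hi, n, hn, rfl⟩]
        · rfl
        · rintro ⟨i', hi', n', hn', h1, h2⟩
          by_cases hii : i' = i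
          · subst hii
            have := (π i').injective h1
            subst this
            exact hv h2
          · exact hB.hd i' hi' i hi hii n' hn' n hn h1) ⟨_, g, hpm⟩
  have hm1 : 1 ≤ m := by
    rw [psize_cons, imps_size] at hm
    have := size_pos A
    omega
  obtain ⟨L', e1, e2⟩ := r
  refine ⟨L', e1, e2.trans ?_⟩
  calc c * (4 * m + 4) ^ 2 ≤ c * (8 * m) ^ 2 :=
        Nat.mul_le_mul_left _ (Nat.pow_le_pow_left (by omega) _)
    _ = 64 * c * m ^ 2 := by ring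

theorem key1 {F : List Rule} (hF : IsFrege F) (h4 : S_T4 F) {H : Set (ℕ → Fm)} {w n₀ : ℕ}
    (hn : n₀ < w) {v u : ℕ → Bool} (h : Reach H w v u) (hne : u n₀ ≠ v n₀) (r₀ : Prop) :
    Key F (SSize F H r₀) := by
  obtain ⟨c₁, h₁⟩ := up1 hF hn h hne r₀
  obtain ⟨c₂, h₂⟩ := down1 h4 v w n₀
  refine ⟨c₁ + c₂, fun A s => ?_⟩
  rintro ⟨k, L, hL, hs⟩
  obtain ⟨z, q, φ, π, hπ, L', g1, g2⟩ := h₁ A k L hL
  have hs1 : 1 ≤ psize (A :: L) := by
    have : A.size ≤ psize (A :: L) := size_le_psize (by simp)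
    exact (size_pos A).trans this
  have g3 : psize (imps (top z :: blkL v w π 0 k) A :: L') ≤ (c₁ + c₂) * s ^ 5 := by
    refine g2.trans (Nat.mul_le_mul (by omega) ?_)
    calc psize (A :: L) ^ 3 ≤ psize (A :: L) ^ 5 := Nat.pow_le_pow_right hs1 (by norm_num)
      _ ≤ s ^ 5 := Nat.pow_le_pow_left hs 5
  refine ⟨imps (top z :: blkL v w π 0 k) A, ?_, ?_, ⟨L', g1, g3⟩, ?_⟩
  · rw [imps_size]; omega
  · rw [psize_cons] at g3; omega
  · intro m hm
    obtain ⟨L'', e1, e2⟩ := h₂ A k z q φ π m hπ hm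
    exact ⟨L'', e1, e2.trans (Nat.mul_le_mul_right _ (by omega))⟩

/-- a template is concerned with a finite block -/
theorem inB_of_loc {θ : ℕ → Fm} (h : Loc θ) (N : ℕ) : ∃ w, N ≤ w ∧ InB w θ := by
  obtain ⟨w, hw⟩ := h
  set S := (Finset.range w).biUnion (fun n => (θ n).vars) with hS
  refine ⟨w + N + S.sup id + 1, by omega, fun n hn => hw n (by omega), fun n _ m hm => ?_⟩
  by_cases hnw : n < w
  · have : m ∈ S := by
      simp only [hS, Finset.mem_biUnion, Finset.mem_range]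
      exact ⟨n, hnw, hm⟩
    have : m ≤ S.sup id := Finset.le_sup (f := id) this
    omega
  · rw [hw n (by omega)] at hm
    simp only [vars, Finset.mem_singleton] at hm
    omega

theorem place_refl (θ : ℕ → Fm) : place θ (Equiv.refl ℕ) = θ := by
  funext n
  simp only [place, Equiv.refl_symm, Equiv.refl_apply]
  exact subst_var _

/-- a nontrivial template moves some assignment -/
theorem reach_of_nontriv {H : Set (ℕ → Fm)} {θ : ℕ → Fm} (hθ : θ ∈ H) (hl : Loc θ)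
    (ht : ¬ Triv θ) : ∃ (w n₀ : ℕ) (v u : ℕ → Bool), n₀ < w ∧ Reach H w v u ∧ u n₀ ≠ v n₀ := by
  classical
  simp only [Triv, not_forall] at ht
  obtain ⟨V, n₀, hV⟩ := ht
  obtain ⟨w, hw, hB⟩ := inB_of_loc hl (n₀ + 1)
  set v : ℕ → Bool := fun n => decide (V n) with hv
  refine ⟨w, n₀, v, fun n => ev v (place θ (Equiv.refl ℕ) n), by omega,
    Reach.step (ρ := Equiv.refl ℕ) hθ (by rw [place_refl]; exact hB) (Reach.refl _), ?_⟩
  rw [place_refl]
  intro h
  apply hV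
  have h1 := ev_eval v (θ n₀)
  have h' : ev v (θ n₀) = v n₀ := h
  rw [h'] at h1
  simp only [hv, decide_eq_true_eq] at h1
  exact h1.symm

theorem main_nontriv {F : List Rule} (hF : IsFrege F) (h4 : S_T4 F) {H : Set (ℕ → Fm)}
    (hl : ∀ θ ∈ H, Loc θ) (ht : ∃ θ ∈ H, ¬ Triv θ) (r₀ : Prop) :
    (ExpSep (EFSize F) (FSize F) → ExpSep (SSize F H r₀) (FSize F)) ∧
      (PolySim (SSize F H r₀) (FSize F) → PolySim (EFSize F) (FSize F)) := by
  obtain ⟨θ, hθ, ht⟩ := ht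
  obtain ⟨w, n₀, v, u, h1, h2, h3⟩ := reach_of_nontriv hθ (hl θ hθ) ht
  have hk := key1 hF h4 h1 h2 h3 r₀
  exact ⟨expSep_gen hk ssize_mono, polySim_gen hk⟩

theorem main_nofix {F : List Rule} (hF : IsFrege F) (t3s : S_T3s) {H : Set (ℕ → Fm)}
    (hl : ∀ θ ∈ H, Loc θ) (h0 : ∃ θ ∈ H, ¬ Fixes False θ) (h1 : ∃ θ ∈ H, ¬ Fixes True θ)
    (r₀ : Prop) :
    PolySim (EFSize F) (SSize F H r₀) := by
  obtain ⟨w, n₀, hn, hH⟩ := t3s H hl h0 h1
  exact up3 hF hn hH r₀

end Pool.Agent.H586T
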